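import Pool.Agent.Lib.MP_0430e4_lc.NT.MulA1

/-!
MULTIPLES theorem, module A2 (45 minutes): entropy of the tilted end point, and the pigeonhole.
Put Z = Ex (L T) g > 0 and F N = Ex (L N) (fun p => hh N p * log (L N p)).

PROOF of entropy_bound (- F T <= Z (n log (2T+1) + log (1/Z))):  write l = L u b T, for p in the support
l p > 0.  If g p = 0 the term vanishes; otherwise 0 < g p <= 1.  With c = (2T+1)^n:
   - log (l p) = log (g p / Z) + log (Z / (g p l p)) <= log (1/Z) + log c + log (Z / (g p * l p * c))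
               <= log (1/Z) + log c + Z / (g p * l p * c) - 1          (Real.log_le_sub_one_of_pos).
Multiply by l p * g p and sum over the support (Ex_eq_sum with s = support):
   sum_p l p g p (-log l p) <= (log (1/Z) + log c) Z + Z * card(support) / c - Z <= Z (log (1/Z) + log c)
by L_support_card.  log c = n log (2T+1).  (Points with g p = 0: the left term is 0 and one needs
0 <= Z/c, fine: estimate the sum of Z/c over the points with g p != 0 by card/c.)

PROOF of pigeon: F 0 = hh 0 0 * log 1 = 0 (Ex_L_zero, L u b 0 0 = 1), F T = Ex (L T) (g * log L T) by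
hh_last.  sum_{N<T} (F N - F (N+1)) = F 0 - F T (Finset.sum_range_sub'), so some N has
F N - F (N+1) <= (F 0 - F T)/T  (Finset.exists_le_of_sum_le, T >= 1).
-/

set_option maxHeartbeats 400000

namespace Pool.Agent.Lib.NT.Mul

open Finset

variable {n : ℕ} {K : Type*} [Fintype K] (u : K → ℝ) (b : K → G n) (T : ℕ) (g : G n → ℝ)

/-- `F N = Z * E log L_N(S_N)` in the tilted law. -/
noncomputable def FF (N : ℕ) : ℝ :=
  Ex (L u b N) (fun p => hh u b T g N p * Real.log (L u b N p))

private theorem mula2_pt {l γ Z c : ℝ} (hl : 0 < l) (hγ : 0 ≤ γ) (hγ1 : γ ≤ 1) (hZ : 0 < Z)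
    (hc : 0 < c) :
    -(l * (γ * Real.log l)) ≤ (l * γ) * (Real.log (1 / Z) + Real.log c) + (Z / c - l * γ) := by
  rcases hγ.eq_or_lt with h0 | h0
  · rw [← h0]
    have : 0 < Z / c := div_pos hZ hc
    simp only [zero_mul, mul_zero, neg_zero, sub_zero, zero_add]
    exact this.le
  · have hlg : 0 < l * γ := mul_pos hl h0
    have hpos : 0 < Z / (l * γ * c) := div_pos hZ (mul_pos hlg hc)
    have h1 := Real.log_le_sub_one_of_pos hpos
    rw [Real.log_div hZ.ne' (mul_pos hlg hc).ne', Real.log_mul hlg.ne' hc.ne',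
      Real.log_mul hl.ne' h0.ne'] at h1
    have h2 : Real.log γ ≤ 0 := Real.log_nonpos hγ hγ1
    have h3 : -Real.log l ≤ Real.log (1 / Z) + Real.log c + (Z / (l * γ * c) - 1) := by
      rw [one_div, Real.log_inv]
      linarith
    have h4 := mul_le_mul_of_nonneg_left h3 hlg.le
    have h5 : l * γ * (Z / (l * γ * c)) = Z / c := by
      field_simp
    have h6 : l * γ * (Real.log (1 / Z) + Real.log c + (Z / (l * γ * c) - 1))
        = (l * γ) * (Real.log (1 / Z) + Real.log c) + (Z / c - l * γ) := by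
      rw [mul_add, mul_sub, h5, mul_one]
    rw [h6] at h4
    calc -(l * (γ * Real.log l)) = l * γ * -Real.log l := by ring
      _ ≤ _ := h4

theorem entropy_bound (hu : ∀ k, 0 ≤ u k) (hu1 : ∑ k, u k = 1)
    (hb : ∀ k i, |b k i| ≤ 1) (hg : ∀ s, 0 ≤ g s) (hg1 : ∀ s, g s ≤ 1) (Z : ℝ)
    (hZ : Z = Ex (L u b T) g) (hZ0 : 0 < Z) :
    - Ex (L u b T) (fun p => g p * Real.log (L u b T p))
      ≤ Z * (n * Real.log (2 * T + 1) + Real.log (1 / Z)) := by
  have hcpos : (0 : ℝ) < (2 * T + 1 : ℝ) ^ n := by positivity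
  have hlogc : Real.log ((2 * T + 1 : ℝ) ^ n) = n * Real.log (2 * T + 1) := Real.log_pow _ _
  have hcard : (((L u b T).support.card : ℕ) : ℝ) ≤ (2 * T + 1 : ℝ) ^ n := by
    have h1 := L_support_card u b hb T
    have h2 : (((L u b T).support.card : ℕ) : ℝ) ≤ (((2 * T + 1) ^ n : ℕ) : ℝ) := by
      exact_mod_cast h1
    push_cast at h2
    exact h2
  have hpt : ∀ p ∈ (L u b T).support, -(L u b T p * (g p * Real.log (L u b T p)))
      ≤ (L u b T p * g p) * (Real.log (1 / Z) + Real.log ((2 * T + 1 : ℝ) ^ n))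
        + (Z / (2 * T + 1 : ℝ) ^ n - L u b T p * g p) := by
    intro p hp
    have hne : L u b T p ≠ 0 := Finsupp.mem_support_iff.1 hp
    have hpos : 0 < L u b T p := lt_of_le_of_ne (L_nonneg u b hu T p) hne.symm
    exact mula2_pt hpos (hg p) (hg1 p) hZ0 hcpos
  have hsum := Finset.sum_le_sum hpt
  have hZs : ∑ p ∈ (L u b T).support, L u b T p * g p = Z := by
    rw [hZ]; rfl
  have hL : ∑ p ∈ (L u b T).support, -(L u b T p * (g p * Real.log (L u b T p)))
      = - Ex (L u b T) (fun p => g p * Real.log (L u b T p)) := by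
    rw [Finset.sum_neg_distrib]; rfl
  rw [hL, Finset.sum_add_distrib, ← Finset.sum_mul, Finset.sum_sub_distrib, hZs,
    Finset.sum_const, nsmul_eq_mul, hlogc] at hsum
  have h7 : (((L u b T).support.card : ℕ) : ℝ) * (Z / (2 * T + 1 : ℝ) ^ n) ≤ Z := by
    rw [← mul_div_assoc, div_le_iff₀ hcpos, mul_comm]
    exact mul_le_mul_of_nonneg_left hcard hZ0.le
  calc _ ≤ _ := hsum
    _ ≤ Z * (Real.log (1 / Z) + n * Real.log (2 * T + 1)) + 0 := by linarith
    _ = _ := by ring

theorem pigeon (hu : ∀ k, 0 ≤ u k) (hu1 : ∑ k, u k = 1)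
    (hb : ∀ k i, |b k i| ≤ 1) (hg : ∀ s, 0 ≤ g s) (hg1 : ∀ s, g s ≤ 1) (hT : 1 ≤ T) (Z : ℝ)
    (hZ : Z = Ex (L u b T) g) (hZ0 : 0 < Z) :
    ∃ N < T, FF u b T g N - FF u b T g (N + 1)
      ≤ Z * ((n * Real.log (2 * T + 1) + Real.log (1 / Z)) / T) := by
  have h0 : FF u b T g 0 = 0 := by
    unfold FF
    rw [Ex_L_zero]
    have : L u b 0 0 = 1 := by
      rw [L, Finsupp.single_apply, if_pos rfl]
    rw [this, Real.log_one, mul_zero]
  have hTT : FF u b T g T = Ex (L u b T) (fun p => g p * Real.log (L u b T p)) := by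
    unfold FF
    exact Ex_congr _ _ _ (fun p _ => by rw [hh_last])
  have hent := entropy_bound u b T g hu hu1 hb hg hg1 Z hZ hZ0
  by_contra hcon
  have hcon' : ∀ N ∈ Finset.range T, Z * ((n * Real.log (2 * T + 1) + Real.log (1 / Z)) / T)
      < FF u b T g N - FF u b T g (N + 1) := by
    intro N hN
    rw [Finset.mem_range] at hN
    by_contra hle
    exact hcon ⟨N, hN, not_lt.1 hle⟩
  have hne : (Finset.range T).Nonempty := ⟨0, Finset.mem_range.2 hT⟩
  have hs := Finset.sum_lt_sum_of_nonempty hne hcon'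
  rw [Finset.sum_range_sub', Finset.sum_const, Finset.card_range, nsmul_eq_mul, h0, hTT] at hs
  have hTpos : (0 : ℝ) < T := by exact_mod_cast hT
  have h8 : (T : ℝ) * (Z * ((n * Real.log (2 * T + 1) + Real.log (1 / Z)) / T))
      = Z * (n * Real.log (2 * T + 1) + Real.log (1 / Z)) := by
    field_simp
  rw [h8] at hs
  linarith

end Pool.Agent.Lib.NT.Mul
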