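import Pool.Agent.Lib.MP_0430e4_lc.NT.MulA1

/-!
MULTIPLES theorem, module A3 (20 minutes): the exponential moment of minus the entropy loss, and a
Markov lemma.

PROOF of exp_moment: hh <= 1 (hh_le_one), so the k-th summand is at most
u k * Ex (L N) (fun p => L (N+1) (p + b k) / L N p) = u k * sum_{p in supp L N} L (N+1) (p + b k)
<= u k * sum_q L (N+1) q = u k * 1 (p -> p + b k is injective; L_nonneg; the total mass of L (N+1) is
Ex_L_one, e.g. Ex_eq_sum over support).  Sum over k: sum u k = 1.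

PROOF of markov_half: a finite sum over s.  Put Y = D + c.  From D x > E (c >= 0): Y x > E.
Pointwise Y <= E * 1_{D > E} is false; use:  Y + exp (-Y) >= 0 always (exp (-Y) >= -Y + 1 > - Y), and on
D x > E:  Y + exp(-Y) >= E.  So  E * sum_{D > E} pi <= sum pi (Y + exp (-Y)) <= (kap + c) + 1
(sum pi Y = sum pi D + c sum pi <= kap + c; sum pi exp (-Y) = exp (-c) sum pi exp (-D) <= 1).
With E >= 2 (kap + c + 1) and E > 0: sum_{D > E} pi <= 1/2 (if kap + c + 1 <= 0 the bound still gives
sum_{D > E} pi <= 0 <= 1/2).  So sum_{D <= E} pi >= 1/2.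
-/

set_option maxHeartbeats 400000

namespace Pool.Agent.Lib.NT.Mul

open Finset

theorem exp_moment {n : ℕ} {K : Type*} [Fintype K] (u : K → ℝ) (b : K → G n) (T : ℕ)
    (g : G n → ℝ) (hu : ∀ k, 0 ≤ u k) (hu1 : ∑ k, u k = 1) (hg1 : ∀ s, g s ≤ 1)
    (hg : ∀ s, 0 ≤ g s) (N : ℕ) :
    ∑ k, u k * Ex (L u b N) (fun p =>
      hh u b T g (N + 1) (p + b k) * (L u b (N + 1) (p + b k) / L u b N p)) ≤ 1 := by
  classical
  have key : ∀ k, Ex (L u b N) (fun p =>
      hh u b T g (N + 1) (p + b k) * (L u b (N + 1) (p + b k) / L u b N p)) ≤ 1 := by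
    intro k
    have h1 : Ex (L u b N) (fun p =>
        hh u b T g (N + 1) (p + b k) * (L u b (N + 1) (p + b k) / L u b N p))
        ≤ ∑ p ∈ (L u b N).support, L u b (N + 1) (p + b k) := by
      rw [Ex_eq_sum _ _ _ (subset_refl _)]
      refine Finset.sum_le_sum fun p hp => ?_
      have hp0 : L u b N p ≠ 0 := Finsupp.mem_support_iff.1 hp
      have e1 : L u b N p * (hh u b T g (N + 1) (p + b k) * (L u b (N + 1) (p + b k) / L u b N p))
          = hh u b T g (N + 1) (p + b k) * L u b (N + 1) (p + b k) := by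
        field_simp
      rw [e1]
      exact mul_le_of_le_one_left (L_nonneg u b hu _ _) (hh_le_one u b T g hu hu1 hg1 _ _)
    have h2 : ∑ p ∈ (L u b N).support, L u b (N + 1) (p + b k)
        = ∑ q ∈ (L u b N).support.image (fun p => p + b k), L u b (N + 1) q := by
      rw [Finset.sum_image]
      intro x _ y _ hxy
      exact add_right_cancel hxy
    have h3 : ∑ q ∈ (L u b N).support.image (fun p => p + b k), L u b (N + 1) q
        ≤ ∑ q ∈ (L u b N).support.image (fun p => p + b k) ∪ (L u b (N + 1)).support,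
          L u b (N + 1) q :=
      Finset.sum_le_sum_of_subset_of_nonneg Finset.subset_union_left
        fun q _ _ => L_nonneg u b hu _ _
    have h4 : ∑ q ∈ (L u b N).support.image (fun p => p + b k) ∪ (L u b (N + 1)).support,
          L u b (N + 1) q = 1 := by
      have h5 := Ex_eq_sum (L u b (N + 1)) (fun _ => (1 : ℝ))
        ((L u b N).support.image (fun p => p + b k) ∪ (L u b (N + 1)).support)
        Finset.subset_union_right
      rw [Ex_L_one u b hu1] at h5
      rw [h5]
      exact Finset.sum_congr rfl fun q _ => (mul_one _).symm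
    linarith [h1, h2.le, h3, h4.le]
  calc ∑ k, u k * Ex (L u b N) (fun p =>
      hh u b T g (N + 1) (p + b k) * (L u b (N + 1) (p + b k) / L u b N p))
      ≤ ∑ k, u k * 1 := Finset.sum_le_sum fun k _ => mul_le_mul_of_nonneg_left (key k) (hu k)
    _ = 1 := by simp [hu1]

open Classical in
theorem markov_half {ι : Type*} (s : Finset ι) (π D : ι → ℝ) (hπ : ∀ x ∈ s, 0 ≤ π x)
    (hπ1 : ∑ x ∈ s, π x = 1) (c kap E : ℝ) (hc : 0 ≤ c)
    (hexp : ∑ x ∈ s, π x * Real.exp (- D x) ≤ Real.exp c)
    (hD : ∑ x ∈ s, π x * D x ≤ kap) (hE : 2 * (kap + c + 1) ≤ E) (hE0 : 0 < E) :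
    1 / 2 ≤ ∑ x ∈ s, if D x ≤ E then π x else 0 := by
  have hsplit : (∑ x ∈ s, if D x ≤ E then π x else 0) + (∑ x ∈ s, if D x ≤ E then 0 else π x) = 1 := by
    rw [← Finset.sum_add_distrib, ← hπ1]
    refine Finset.sum_congr rfl fun x _ => ?_
    split_ifs <;> simp
  have hpt : ∀ x ∈ s, E * (if D x ≤ E then 0 else π x)
      ≤ π x * D x + c * π x + Real.exp (-c) * (π x * Real.exp (- D x)) := by
    intro x hx
    have hp := hπ x hx
    have e1 : π x * D x + c * π x + Real.exp (-c) * (π x * Real.exp (- D x))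
        = π x * ((D x + c) + Real.exp (-(D x + c))) := by
      have : Real.exp (-(D x + c)) = Real.exp (-c) * Real.exp (- D x) := by
        rw [← Real.exp_add]; congr 1; ring
      rw [this]; ring
    rw [e1]
    have h1 : 1 ≤ (D x + c) + Real.exp (-(D x + c)) := by
      have := Real.add_one_le_exp (-(D x + c))
      linarith
    split_ifs with h
    · rw [mul_zero]
      exact mul_nonneg hp (by linarith)
    · rw [mul_comm]
      refine mul_le_mul_of_nonneg_left ?_ hp
      have h2 := Real.exp_pos (-(D x + c))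
      push Not at h
      linarith
  have hsum := Finset.sum_le_sum hpt
  rw [← Finset.mul_sum, Finset.sum_add_distrib, Finset.sum_add_distrib, ← Finset.mul_sum,
    ← Finset.mul_sum, hπ1] at hsum
  have h3 : Real.exp (-c) * ∑ x ∈ s, π x * Real.exp (- D x) ≤ 1 := by
    calc Real.exp (-c) * ∑ x ∈ s, π x * Real.exp (- D x) ≤ Real.exp (-c) * Real.exp c :=
          mul_le_mul_of_nonneg_left hexp (Real.exp_pos _).le
      _ = 1 := by rw [← Real.exp_add]; simp
  have h4 : E * (∑ x ∈ s, if D x ≤ E then 0 else π x) ≤ E * (1 / 2) := by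
    linarith
  have h5 := le_of_mul_le_mul_left h4 hE0
  linarith

end Pool.Agent.Lib.NT.Mul
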