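import Pool.Agent.Lib.MP_0430e4_lc.NT.MulA2
import Pool.Agent.Lib.MP_0430e4_lc.NT.MulA3

/-!
MULTIPLES theorem, module A4 (50 minutes): the good step and the good shift r.

PROOF of good_step.  Take N from pigeon.  Let s = (L N).support ×ˢ univ, and for x = (p, k)
  pi x = L N p * u k * hh (N+1) (p + b k) / Z,   D x = log (L N p) - log (L (N+1) (p + b k)).
sum pi = 1: this is Ex_hh_stay at phi = 1 and Ex_hh (divide by Z).
sum pi * D = (FF N - FF (N+1)) / Z by Ex_hh_stay (phi = log (L N .)) and Ex_hh_shift (phi = log (L (N+1) .)).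
sum pi exp (-D) <= 1/Z = exp (log (1/Z)): for pi x != 0 one has L N p > 0, u k > 0 hence
L (N+1) (p + b k) >= u k * L N p > 0 (L_succ_apply, single term), exp (- D x) = L (N+1)(p + b k) / L N p;
exp_moment.  [log (1/Z) >= 0 as Z <= 1.]
markov_half with c = log (1/Z), kap = (n log (2T+1) + log (1/Z))/T.  Where pi x != 0: D x <= E iff
L N p <= exp E * L (N+1) (p + b k).  Multiply by Z and rewrite the sum over s as
sum_k u k * Ex (L N) (...).

PROOF of good_shift.  hh (N+1) (p + b k) = Ex (L (T - (N+1))) (fun r => g (p + b k + r)), so the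
left side of good_step is Ex (L (T-(N+1))) (fun r => Phi r) with
Phi r = sum_k u k * Ex (L N) (fun p => if GOOD then g (p + b k + r) else 0)  (exchange finite sums);
if Phi r < Z/2 for all r in the support of L (T-(N+1)) (total mass 1, Ex_L_one) then the
expectation is < Z/2: contradiction.
-/

set_option maxHeartbeats 400000

namespace Pool.Agent.Lib.NT.Mul

open Finset

variable {n : ℕ} {K : Type*} [Fintype K] (u : K → ℝ) (b : K → G n) (T : ℕ) (g : G n → ℝ)

private theorem mulA4_sum_prod (N : ℕ) (F : K → G n → ℝ) :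
    ∑ x ∈ (L u b N).support ×ˢ (univ : Finset K), L u b N x.1 * u x.2 * F x.2 x.1
      = ∑ k, u k * Ex (L u b N) (F k) := by
  rw [Finset.sum_product_right]
  refine Finset.sum_congr rfl fun k _ => ?_
  unfold Ex Finsupp.sum
  rw [Finset.mul_sum]
  exact Finset.sum_congr rfl fun p _ => by ring

private theorem mulA4_swap {m : ℕ} (μ ν : G m →₀ ℝ) (F : G m → G m → ℝ) :
    Ex μ (fun r => Ex ν (fun p => F p r)) = Ex ν (fun p => Ex μ (fun r => F p r)) := by
  simp only [Ex, Finsupp.sum, Finset.mul_sum]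
  rw [Finset.sum_comm]
  exact Finset.sum_congr rfl fun p _ => Finset.sum_congr rfl fun r _ => by ring

private theorem mulA4_le_succ (hu : ∀ k, 0 ≤ u k) (N : ℕ) (p : G n) (k : K) :
    u k * L u b N p ≤ L u b (N + 1) (p + b k) := by
  rw [L_succ_apply]
  have h : u k * L u b N (p + b k - b k) ≤ ∑ k', u k' * L u b N (p + b k - b k') :=
    Finset.single_le_sum (f := fun k' => u k' * L u b N (p + b k - b k'))
      (fun k' _ => mul_nonneg (hu k') (L_nonneg u b hu N _)) (Finset.mem_univ k)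
  rwa [add_sub_cancel_right] at h

open Classical in
theorem good_step (hu : ∀ k, 0 ≤ u k) (hu1 : ∑ k, u k = 1)
    (hb : ∀ k i, |b k i| ≤ 1) (hg : ∀ s, 0 ≤ g s) (hg1 : ∀ s, g s ≤ 1) (hT : 1 ≤ T) (Z : ℝ)
    (hZ : Z = Ex (L u b T) g) (hZ0 : 0 < Z) (E : ℝ) (hE0 : 0 < E)
    (hE : 2 * ((n * Real.log (2 * T + 1) + Real.log (1 / Z)) / T + Real.log (1 / Z) + 1) ≤ E) :
    ∃ N < T, Z / 2 ≤ ∑ k, u k * Ex (L u b N) (fun p =>
      if L u b N p ≤ Real.exp E * L u b (N + 1) (p + b k)
        then hh u b T g (N + 1) (p + b k) else 0) := by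
  obtain ⟨N, hN, hpig⟩ := pigeon u b T g hu hu1 hb hg hg1 hT Z hZ hZ0
  refine ⟨N, hN, ?_⟩
  have hZ1 : Z ≤ 1 := by
    rw [hZ, ← Ex_L_one u b hu1 T]
    exact Ex_mono _ (fun p => L_nonneg u b hu T p) _ _ (fun p _ => hg1 p)
  have hlog : 0 ≤ Real.log (1 / Z) := Real.log_nonneg (by
    rw [le_div_iff₀ hZ0, one_mul]; exact hZ1)
  have hmass : ∑ k, u k * Ex (L u b N) (fun p => hh u b T g (N + 1) (p + b k)) = Z := by
    have h := Ex_hh_stay u b T g hN (fun _ => (1 : ℝ))
    simp only [mul_one] at h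
    rw [h, hZ]
    exact Ex_hh u b T g hN.le
  have hs1 : ∑ x ∈ (L u b N).support ×ˢ (univ : Finset K),
      L u b N x.1 * u x.2 * hh u b T g (N + 1) (x.1 + b x.2) / Z = 1 := by
    rw [← Finset.sum_div, mulA4_sum_prod u b N (fun k p => hh u b T g (N + 1) (p + b k)), hmass]
    exact div_self hZ0.ne'
  have hpos : ∀ x ∈ (L u b N).support ×ˢ (univ : Finset K), 0 < L u b N x.1 := by
    intro x hx
    have hx1 : x.1 ∈ (L u b N).support := (Finset.mem_product.1 hx).1
    exact lt_of_le_of_ne (L_nonneg u b hu N _) (Ne.symm (Finsupp.mem_support_iff.1 hx1))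
  have hpos' : ∀ x ∈ (L u b N).support ×ˢ (univ : Finset K), u x.2 ≠ 0 →
      0 < L u b (N + 1) (x.1 + b x.2) := by
    intro x hx hux
    have h1 : 0 < u x.2 := lt_of_le_of_ne (hu _) (Ne.symm hux)
    exact lt_of_lt_of_le (mul_pos h1 (hpos x hx)) (mulA4_le_succ u b hu N x.1 x.2)
  have hπ : ∀ x ∈ (L u b N).support ×ˢ (univ : Finset K),
      0 ≤ L u b N x.1 * u x.2 * hh u b T g (N + 1) (x.1 + b x.2) / Z := by
    intro x hx
    have h2 := hh_nonneg u b T g hu hg (N + 1) (x.1 + b x.2)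
    have h3 := hpos x hx
    have h4 := hu x.2
    positivity
  have hexp : ∑ x ∈ (L u b N).support ×ˢ (univ : Finset K),
      L u b N x.1 * u x.2 * hh u b T g (N + 1) (x.1 + b x.2) / Z
        * Real.exp (- (Real.log (L u b N x.1) - Real.log (L u b (N + 1) (x.1 + b x.2))))
      ≤ Real.exp (Real.log (1 / Z)) := by
    rw [Real.exp_log (by positivity)]
    have hm := exp_moment u b T g hu hu1 hg1 hg N
    rw [← mulA4_sum_prod u b N (fun k p =>
      hh u b T g (N + 1) (p + b k) * (L u b (N + 1) (p + b k) / L u b N p))] at hm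
    have hm' : (∑ x ∈ (L u b N).support ×ˢ (univ : Finset K),
        L u b N x.1 * u x.2 * (hh u b T g (N + 1) (x.1 + b x.2)
          * (L u b (N + 1) (x.1 + b x.2) / L u b N x.1))) / Z ≤ 1 / Z :=
      div_le_div_of_nonneg_right hm hZ0.le
    refine le_trans (le_of_eq ?_) hm'
    rw [Finset.sum_div]
    refine Finset.sum_congr rfl fun x hx => ?_
    by_cases hux : u x.2 = 0
    · simp [hux]
    · have h5 := hpos x hx
      have h6 := hpos' x hx hux
      rw [neg_sub, Real.exp_sub, Real.exp_log h6, Real.exp_log h5]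
      ring
  have hDs : ∑ x ∈ (L u b N).support ×ˢ (univ : Finset K),
      L u b N x.1 * u x.2 * hh u b T g (N + 1) (x.1 + b x.2) / Z
        * (Real.log (L u b N x.1) - Real.log (L u b (N + 1) (x.1 + b x.2)))
      ≤ (n * Real.log (2 * T + 1) + Real.log (1 / Z)) / T := by
    have h7 : ∑ x ∈ (L u b N).support ×ˢ (univ : Finset K),
        L u b N x.1 * u x.2 * hh u b T g (N + 1) (x.1 + b x.2) / Z
          * (Real.log (L u b N x.1) - Real.log (L u b (N + 1) (x.1 + b x.2)))
        = (FF u b T g N - FF u b T g (N + 1)) / Z := by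
      have h8 := Ex_hh_stay u b T g hN (fun p => Real.log (L u b N p))
      have h9 := Ex_hh_shift u b T g N (fun q => Real.log (L u b (N + 1) q))
      rw [← mulA4_sum_prod u b N (fun k p =>
        hh u b T g (N + 1) (p + b k) * Real.log (L u b N p))] at h8
      rw [← mulA4_sum_prod u b N (fun k p =>
        hh u b T g (N + 1) (p + b k) * Real.log (L u b (N + 1) (p + b k)))] at h9
      unfold FF
      rw [← h8, ← h9, ← Finset.sum_sub_distrib, Finset.sum_div]
      exact Finset.sum_congr rfl fun x _ => by ring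
    rw [h7, div_le_iff₀ hZ0]
    linarith [hpig]
  have hmk := markov_half ((L u b N).support ×ˢ (univ : Finset K))
    (fun x => L u b N x.1 * u x.2 * hh u b T g (N + 1) (x.1 + b x.2) / Z)
    (fun x => Real.log (L u b N x.1) - Real.log (L u b (N + 1) (x.1 + b x.2)))
    hπ hs1 (Real.log (1 / Z))
    ((n * Real.log (2 * T + 1) + Real.log (1 / Z)) / T) E hlog hexp hDs hE hE0
  rw [← mulA4_sum_prod u b N (fun k p =>
    if L u b N p ≤ Real.exp E * L u b (N + 1) (p + b k)
      then hh u b T g (N + 1) (p + b k) else 0)]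
  have hfin : (∑ x ∈ (L u b N).support ×ˢ (univ : Finset K),
      (if Real.log (L u b N x.1) - Real.log (L u b (N + 1) (x.1 + b x.2)) ≤ E
        then L u b N x.1 * u x.2 * hh u b T g (N + 1) (x.1 + b x.2) / Z else 0)) * Z
      = ∑ x ∈ (L u b N).support ×ˢ (univ : Finset K), L u b N x.1 * u x.2 *
        (if L u b N x.1 ≤ Real.exp E * L u b (N + 1) (x.1 + b x.2)
          then hh u b T g (N + 1) (x.1 + b x.2) else 0) := by
    rw [Finset.sum_mul]
    refine Finset.sum_congr rfl fun x hx => ?_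
    by_cases hux : u x.2 = 0
    · simp [hux]
    · have h5 := hpos x hx
      have h6 := hpos' x hx hux
      have hiff : (Real.log (L u b N x.1) - Real.log (L u b (N + 1) (x.1 + b x.2)) ≤ E)
          ↔ L u b N x.1 ≤ Real.exp E * L u b (N + 1) (x.1 + b x.2) := by
        rw [sub_le_iff_le_add, Real.log_le_iff_le_exp h5, Real.exp_add, Real.exp_log h6]
      by_cases hc : L u b N x.1 ≤ Real.exp E * L u b (N + 1) (x.1 + b x.2)
      · rw [if_pos hc, if_pos (hiff.2 hc)]
        field_simp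
      · rw [if_neg hc, if_neg (fun h => hc (hiff.1 h))]
        ring
  rw [← hfin]
  calc Z / 2 = 1 / 2 * Z := by ring
    _ ≤ _ := mul_le_mul_of_nonneg_right hmk hZ0.le

open Classical in
theorem good_shift (hu : ∀ k, 0 ≤ u k) (hu1 : ∑ k, u k = 1)
    (hb : ∀ k i, |b k i| ≤ 1) (hg : ∀ s, 0 ≤ g s) (hg1 : ∀ s, g s ≤ 1) (hT : 1 ≤ T) (Z : ℝ)
    (hZ : Z = Ex (L u b T) g) (hZ0 : 0 < Z) (E : ℝ) (hE0 : 0 < E)
    (hE : 2 * ((n * Real.log (2 * T + 1) + Real.log (1 / Z)) / T + Real.log (1 / Z) + 1) ≤ E) :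
    ∃ N < T, ∃ r : G n, Z / 2 ≤ ∑ k, u k * Ex (L u b N) (fun p =>
      if L u b N p ≤ Real.exp E * L u b (N + 1) (p + b k)
        then g (p + b k + r) else 0) := by
  obtain ⟨N, hN, hstep⟩ := good_step u b T g hu hu1 hb hg hg1 hT Z hZ hZ0 E hE0 hE
  refine ⟨N, hN, ?_⟩
  by_contra hcon
  push Not at hcon
  have hsw : Ex (L u b (T - (N + 1))) (fun r => ∑ k, u k * Ex (L u b N) (fun p =>
      if L u b N p ≤ Real.exp E * L u b (N + 1) (p + b k)
        then g (p + b k + r) else 0))
      = ∑ k, u k * Ex (L u b N) (fun p =>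
      if L u b N p ≤ Real.exp E * L u b (N + 1) (p + b k)
        then hh u b T g (N + 1) (p + b k) else 0) := by
    rw [Ex_sum_fun]
    refine Finset.sum_congr rfl fun k _ => ?_
    rw [Ex_const_mul, mulA4_swap]
    congr 1
    refine Ex_congr _ _ _ fun p _ => ?_
    by_cases hc : L u b N p ≤ Real.exp E * L u b (N + 1) (p + b k)
    · simp only [if_pos hc]
      rfl
    · simp only [if_neg hc]
      simp [Ex]
  rw [← hsw] at hstep
  have hone := Ex_L_one u b hu1 (T - (N + 1))
  have hne : (L u b (T - (N + 1))).support.Nonempty := by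
    rw [Finset.nonempty_iff_ne_empty]
    intro hem
    rw [Ex, Finsupp.sum, hem] at hone
    simp at hone
  have hlt : Ex (L u b (T - (N + 1))) (fun r => ∑ k, u k * Ex (L u b N) (fun p =>
      if L u b N p ≤ Real.exp E * L u b (N + 1) (p + b k)
        then g (p + b k + r) else 0)) < Ex (L u b (T - (N + 1))) (fun _ => Z / 2 * 1) := by
    unfold Ex Finsupp.sum
    refine Finset.sum_lt_sum_of_nonempty hne fun r hr => ?_
    have hrpos : 0 < L u b (T - (N + 1)) r :=
      lt_of_le_of_ne (L_nonneg u b hu _ _) (Ne.symm (Finsupp.mem_support_iff.1 hr))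
    refine mul_lt_mul_of_pos_left ?_ hrpos
    have := hcon r
    unfold Ex Finsupp.sum at this
    rw [mul_one]
    exact this
  rw [Ex_const_mul, hone, mul_one] at hlt
  exact absurd hstep (not_le.2 hlt)

end Pool.Agent.Lib.NT.Mul
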