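import Pool.Agent.Lib.MP_0430e4_lc.NT.MulDefs

/-!
MULTIPLES theorem, module B1 (45 minutes): the energy inequality.

g s = ‖tr w X alpha s‖^2.  For mu >= 0 with total mass <= 1 and any shift r:
   (Ex mu (fun q => g (q + r)))^4 <= Ex mu (fun q => Ex mu (fun q' => g (q - q'))).

PROOF.  Write A s = tr w X alpha s = sum_i w_i e (alpha <s, X i>), |A| <= 1, g = |A|^2.
v q = mu q * conj (A (q + r)) (complex).  m := Ex mu (g(. + r)) = sum_q v q * A (q + r)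
 = sum_i w_i * (sum_q v q * e (alpha <q + r, X i>)).
Cauchy-Schwarz in i (weights w, sum 1): m^2 <= sum_i w_i |sum_q v q e(alpha <q + r, X i>)|^2
 = sum_{q,q'} v q conj(v q') sum_i w_i e (alpha <q - q', X i>) = sum_{q,q'} v q conj (v q') A (q - q')
 <= sum_{q,q'} mu q mu q' |A (q - q')|        (|v q| <= mu q).
Cauchy-Schwarz over (q,q') with weights mu q mu q' of total mass <= 1:
 (sum mu q mu q' |A (q-q')|)^2 <= (sum mu q mu q') (sum mu q mu q' |A (q-q')|^2) <= sum mu q mu q' g (q - q').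
Useful: Finset.inner_mul_le_norm_mul_norm / Finset.sum_mul_sq_le_sq_mul_sq, inner products over
support x support.
-/

set_option maxHeartbeats 400000

namespace Pool.Agent.Lib.NT.Mul

open Finset

theorem norm_tr_le_one {n : ℕ} {I : Type*} [Fintype I] (w : I → ℝ) (X : I → G n)
    (hw : ∀ i, 0 ≤ w i) (hw1 : ∑ i, w i = 1) (β : ℝ) (s : G n) : ‖tr w X β s‖ ≤ 1 := by
  unfold tr
  calc ‖∑ i, (w i : ℂ) * e (β * ip s (X i))‖
      ≤ ∑ i, ‖(w i : ℂ) * e (β * ip s (X i))‖ := norm_sum_le _ _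
    _ = ∑ i, w i := by
        refine Finset.sum_congr rfl fun i _ => ?_
        rw [norm_mul, norm_e, mul_one, Complex.norm_real, Real.norm_of_nonneg (hw i)]
    _ = 1 := hw1

private theorem MulB1_cs {ι : Type*} (s : Finset ι) (a f : ι → ℝ) (ha : ∀ i ∈ s, 0 ≤ a i)
    (h1 : ∑ i ∈ s, a i ≤ 1) :
    (∑ i ∈ s, a i * f i) ^ 2 ≤ ∑ i ∈ s, a i * f i ^ 2 := by
  have h2 : (∑ i ∈ s, a i * f i) ^ 2 ≤ (∑ i ∈ s, a i) * ∑ i ∈ s, a i * f i ^ 2 :=
    Finset.sum_sq_le_sum_mul_sum_of_sq_eq_mul s ha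
      (fun i hi => mul_nonneg (ha i hi) (sq_nonneg _)) (fun i _ => by ring)
  have h3 : 0 ≤ ∑ i ∈ s, a i * f i ^ 2 :=
    Finset.sum_nonneg fun i hi => mul_nonneg (ha i hi) (sq_nonneg _)
  exact h2.trans (mul_le_of_le_one_left h3 h1)

theorem energy {n : ℕ} {I : Type*} [Fintype I] (w : I → ℝ) (X : I → G n)
    (hw : ∀ i, 0 ≤ w i) (hw1 : ∑ i, w i = 1) (α : ℝ) (μ : G n →₀ ℝ) (hμ : ∀ p, 0 ≤ μ p)
    (hμ1 : Ex μ (fun _ => 1) ≤ 1) (r : G n) :
    (Ex μ (fun q => ‖tr w X α (q + r)‖ ^ 2)) ^ 4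
      ≤ Ex μ (fun q => Ex μ (fun q' => ‖tr w X α (q - q')‖ ^ 2)) := by
  classical
  set S := μ.support with hS
  set A : G n → ℂ := fun s => tr w X α s with hA
  set v : G n → ℂ := fun q => (μ q : ℂ) * (starRingEnd ℂ) (A (q + r)) with hv
  set B : I → ℂ := fun i => ∑ q ∈ S, v q * e (α * ip (q + r) (X i)) with hB
  have hA1 : ∀ s, ‖A s‖ ≤ 1 := fun s => norm_tr_le_one w X hw hw1 α s
  have hvn : ∀ q, ‖v q‖ ≤ μ q := by
    intro q
    rw [hv]
    simp only [norm_mul, Complex.norm_real, Complex.norm_conj, Real.norm_of_nonneg (hμ q)]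
    exact mul_le_of_le_one_right (hμ q) (hA1 _)
  have hμS : ∑ q ∈ S, μ q ≤ 1 := by
    have h := hμ1
    unfold Ex Finsupp.sum at h
    simpa using h
  have hLHS : Ex μ (fun q => ‖tr w X α (q + r)‖ ^ 2) = ∑ q ∈ S, μ q * ‖A (q + r)‖ ^ 2 := rfl
  have hRHS : Ex μ (fun q => Ex μ (fun q' => ‖tr w X α (q - q')‖ ^ 2))
      = ∑ q ∈ S, μ q * ∑ q' ∈ S, μ q' * ‖A (q - q')‖ ^ 2 := rfl
  rw [hLHS, hRHS]
  set m : ℝ := ∑ q ∈ S, μ q * ‖A (q + r)‖ ^ 2 with hm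
  have hmB : (m : ℂ) = ∑ i, (w i : ℂ) * B i := by
    have h1 : ∀ i, (w i : ℂ) * B i
        = ∑ q ∈ S, (w i : ℂ) * (v q * e (α * ip (q + r) (X i))) := by
      intro i
      rw [hB, Finset.mul_sum]
    rw [Finset.sum_congr rfl fun i _ => h1 i, Finset.sum_comm, hm]
    push_cast
    refine Finset.sum_congr rfl fun q _ => ?_
    have h2 : ∑ i, (w i : ℂ) * (v q * e (α * ip (q + r) (X i))) = v q * A (q + r) := by
      rw [hA]
      simp only [tr]
      rw [Finset.mul_sum]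
      exact Finset.sum_congr rfl fun i _ => by ring
    rw [h2, hv]
    simp only
    rw [mul_assoc, Complex.conj_mul']
  have hBB : ((∑ i, w i * ‖B i‖ ^ 2 : ℝ) : ℂ)
      = ∑ q ∈ S, ∑ q' ∈ S, v q * (starRingEnd ℂ) (v q') * A (q - q') := by
    have h1 : ∀ i, ((w i * ‖B i‖ ^ 2 : ℝ) : ℂ) = ∑ q ∈ S, ∑ q' ∈ S,
        v q * (starRingEnd ℂ) (v q') * ((w i : ℂ) * e (α * ip (q - q') (X i))) := by
      intro i
      push_cast
      rw [← Complex.mul_conj', hB]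
      simp only [map_sum, map_mul, conj_e]
      rw [Finset.sum_mul_sum, Finset.mul_sum]
      refine Finset.sum_congr rfl fun q _ => ?_
      rw [Finset.mul_sum]
      refine Finset.sum_congr rfl fun q' _ => ?_
      have h2 : e (α * ip (q - q') (X i))
          = e (α * ip (q + r) (X i)) * e (-(α * ip (q' + r) (X i))) := by
        rw [← e_add]
        congr 1
        rw [ip_sub_left, ip_add_left, ip_add_left]
        push_cast
        ring
      rw [h2]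
      ring
    rw [Complex.ofReal_sum, Finset.sum_congr rfl fun i _ => h1 i, Finset.sum_comm]
    refine Finset.sum_congr rfl fun q _ => ?_
    rw [Finset.sum_comm]
    refine Finset.sum_congr rfl fun q' _ => ?_
    rw [← Finset.mul_sum]
    rfl
  have hstep1 : m ^ 2 ≤ ∑ i, w i * ‖B i‖ ^ 2 := by
    have h1 : |m| ≤ ∑ i, w i * ‖B i‖ := by
      have h2 : |m| = ‖(m : ℂ)‖ := by rw [Complex.norm_real, Real.norm_eq_abs]
      rw [h2, hmB]
      refine (norm_sum_le _ _).trans (le_of_eq ?_)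
      refine Finset.sum_congr rfl fun i _ => ?_
      rw [norm_mul, Complex.norm_real, Real.norm_of_nonneg (hw i)]
    calc m ^ 2 = |m| ^ 2 := (sq_abs m).symm
      _ ≤ (∑ i, w i * ‖B i‖) ^ 2 := pow_le_pow_left₀ (abs_nonneg m) h1 2
      _ ≤ ∑ i, w i * ‖B i‖ ^ 2 :=
          MulB1_cs Finset.univ w (fun i => ‖B i‖) (fun i _ => hw i) hw1.le
  have hstep2 : ∑ i, w i * ‖B i‖ ^ 2 ≤ ∑ q ∈ S, μ q * ∑ q' ∈ S, μ q' * ‖A (q - q')‖ := by
    have h0 : 0 ≤ ∑ i, w i * ‖B i‖ ^ 2 :=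
      Finset.sum_nonneg fun i _ => mul_nonneg (hw i) (sq_nonneg _)
    have h1 : ∑ i, w i * ‖B i‖ ^ 2 = ‖((∑ i, w i * ‖B i‖ ^ 2 : ℝ) : ℂ)‖ := by
      rw [Complex.norm_real, Real.norm_of_nonneg h0]
    rw [h1, hBB]
    refine (norm_sum_le _ _).trans (Finset.sum_le_sum fun q _ => ?_)
    rw [Finset.mul_sum]
    refine (norm_sum_le _ _).trans (Finset.sum_le_sum fun q' _ => ?_)
    rw [norm_mul, norm_mul, Complex.norm_conj, ← mul_assoc]
    refine mul_le_mul_of_nonneg_right ?_ (norm_nonneg _)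
    exact mul_le_mul (hvn q) (hvn q') (norm_nonneg _) (hμ q)
  have hstep3 : (∑ q ∈ S, μ q * ∑ q' ∈ S, μ q' * ‖A (q - q')‖) ^ 2
      ≤ ∑ q ∈ S, μ q * ∑ q' ∈ S, μ q' * ‖A (q - q')‖ ^ 2 := by
    refine (MulB1_cs S (fun q => μ q) _ (fun q _ => hμ q) hμS).trans ?_
    refine Finset.sum_le_sum fun q _ => mul_le_mul_of_nonneg_left ?_ (hμ q)
    exact MulB1_cs S (fun q => μ q) _ (fun q _ => hμ q) hμS
  calc m ^ 4 = (m ^ 2) ^ 2 := by ring
    _ ≤ (∑ q ∈ S, μ q * ∑ q' ∈ S, μ q' * ‖A (q - q')‖) ^ 2 :=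
        pow_le_pow_left₀ (sq_nonneg m) (hstep1.trans hstep2) 2
    _ ≤ _ := hstep3

end Pool.Agent.Lib.NT.Mul
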