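import Pool.Agent.Lib.MP_0430e4_lc.NT.MulDefs

/-!
MULTIPLES theorem, module B2: expansion of g over differences, the energy as a second
moment, powers by Jensen, and the same for the walk.

 * tr_sq: ‖tr w X alpha s‖^2 = sum_{i,i'} w_i w_i' e (alpha <s, X i - X i'>)   (as complex numbers)
 * second_moment: Ex mu (fun q => Ex mu (fun q' => ‖tr w X alpha (q - q')‖^2))
      = sum_{i,i'} w_i w_i' ‖trF mu alpha (X i - X i')‖^2
 * power_moment: (sum_{i,i'} w_i w_i' a_{i,i'})^m <= sum_{i,i'} w_i w_i' a_{i,i'}^m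
 * trF_L: trF (L u b N) alpha z = (sum_k u k e (alpha <b k, z>))^N
 * walk_value (Z), walk_ge: Z >= (Q w X v Y alpha)^T.
 * Q_symm: Q w X v Y beta = sum_{i,i'} w_i w_i' ‖tr v Y beta (X i - X i')‖^2
-/

set_option maxHeartbeats 400000

namespace Pool.Agent.Lib.NT.Mul

open Finset

variable {n : ℕ} {I J : Type*} [Fintype I] [Fintype J]

theorem tr_sq (w : I → ℝ) (X : I → G n) (α : ℝ) (s : G n) :
    ((‖tr w X α s‖ ^ 2 : ℝ) : ℂ) = ∑ i, ∑ i', (w i : ℂ) * w i' * e (α * ip s (X i - X i')) := by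
  rw [← Complex.normSq_eq_norm_sq, ← Complex.mul_conj]
  unfold tr
  rw [map_sum, Finset.sum_mul_sum]
  refine Finset.sum_congr rfl fun i _ => Finset.sum_congr rfl fun i' _ => ?_
  rw [map_mul, Complex.conj_ofReal, conj_e, ip_sub_right]
  have h : (α * ((ip s (X i) - ip s (X i') : ℤ) : ℝ)) =
      α * ((ip s (X i) : ℤ) : ℝ) + -(α * ((ip s (X i') : ℤ) : ℝ)) := by
    push_cast; ring
  rw [h, e_add]
  ring

/-- Difference family: weights. -/
def du (v : J → ℝ) : J × J → ℝ := fun k => v k.1 * v k.2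

/-- Difference family: points. -/
def db (Y : J → G n) : J × J → G n := fun k => Y k.1 - Y k.2

theorem du_char (v : J → ℝ) (Y : J → G n) (β : ℝ) (z : G n) :
    ∑ k, (du v k : ℂ) * e (β * ip (db Y k) z) = ((‖tr v Y β z‖ ^ 2 : ℝ) : ℂ) := by
  rw [tr_sq, Fintype.sum_prod_type]
  refine Finset.sum_congr rfl fun i _ => Finset.sum_congr rfl fun i' _ => ?_
  unfold du db
  rw [ip_comm z]
  push_cast
  ring

theorem Q_symm (w : I → ℝ) (X : I → G n) (v : J → ℝ) (Y : J → G n) (β : ℝ) :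
    Q w X v Y β = ∑ i, ∑ i', w i * w i' * ‖tr v Y β (X i - X i')‖ ^ 2 := by
  have h1 : ((Q w X v Y β : ℝ) : ℂ) = ∑ j, ∑ j', ∑ i, ∑ i',
      (w i : ℂ) * w i' * v j * v j' * e (β * ip (X i - X i') (Y j - Y j')) := by
    unfold Q
    push_cast
    refine Finset.sum_congr rfl fun j _ => Finset.sum_congr rfl fun j' _ => ?_
    have h := tr_sq w X β (Y j - Y j')
    push_cast at h
    rw [h, Finset.mul_sum]
    refine Finset.sum_congr rfl fun i _ => ?_
    rw [Finset.mul_sum]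
    refine Finset.sum_congr rfl fun i' _ => ?_
    rw [ip_comm (Y j - Y j')]
    ring
  have h2 : ((∑ i, ∑ i', w i * w i' * ‖tr v Y β (X i - X i')‖ ^ 2 : ℝ) : ℂ) =
      ∑ i, ∑ i', ∑ j, ∑ j',
      (w i : ℂ) * w i' * v j * v j' * e (β * ip (X i - X i') (Y j - Y j')) := by
    push_cast
    refine Finset.sum_congr rfl fun i _ => Finset.sum_congr rfl fun i' _ => ?_
    have h := tr_sq v Y β (X i - X i')
    push_cast at h
    rw [h, Finset.mul_sum]
    refine Finset.sum_congr rfl fun j _ => ?_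
    rw [Finset.mul_sum]
    refine Finset.sum_congr rfl fun j' _ => ?_
    ring
  apply Complex.ofReal_injective
  rw [h1, h2]
  calc _ = ∑ j, ∑ i, ∑ j', ∑ i',
        (w i : ℂ) * w i' * v j * v j' * e (β * ip (X i - X i') (Y j - Y j')) :=
        Finset.sum_congr rfl fun j _ => Finset.sum_comm
    _ = ∑ i, ∑ j, ∑ j', ∑ i',
        (w i : ℂ) * w i' * v j * v j' * e (β * ip (X i - X i') (Y j - Y j')) := Finset.sum_comm
    _ = ∑ i, ∑ j, ∑ i', ∑ j',
        (w i : ℂ) * w i' * v j * v j' * e (β * ip (X i - X i') (Y j - Y j')) :=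
        Finset.sum_congr rfl fun i _ => Finset.sum_congr rfl fun j _ => Finset.sum_comm
    _ = _ := Finset.sum_congr rfl fun i _ => Finset.sum_comm

/-- an expectation as a complex sum over the support -/
theorem Ex_ofReal (μ : G n →₀ ℝ) (F : G n → ℝ) :
    ((Ex μ F : ℝ) : ℂ) = ∑ p ∈ μ.support, (μ p : ℂ) * (F p : ℂ) := by
  unfold Ex Finsupp.sum
  push_cast
  rfl

theorem trF_sum (μ : G n →₀ ℝ) (β : ℝ) (z : G n) :
    trF μ β z = ∑ p ∈ μ.support, (μ p : ℂ) * e (β * ip p z) := rfl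

theorem second_moment (w : I → ℝ) (X : I → G n) (α : ℝ) (μ : G n →₀ ℝ) :
    Ex μ (fun q => Ex μ (fun q' => ‖tr w X α (q - q')‖ ^ 2))
      = ∑ i, ∑ i', w i * w i' * ‖trF μ α (X i - X i')‖ ^ 2 := by
  apply Complex.ofReal_injective
  have h1 : ((Ex μ (fun q => Ex μ (fun q' => ‖tr w X α (q - q')‖ ^ 2)) : ℝ) : ℂ) =
      ∑ q ∈ μ.support, ∑ q' ∈ μ.support, ∑ i, ∑ i',
        (w i : ℂ) * w i' * ((μ q : ℂ) * μ q' * e (α * ip (q - q') (X i - X i'))) := by
    rw [Ex_ofReal]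
    refine Finset.sum_congr rfl fun q _ => ?_
    rw [Ex_ofReal, Finset.mul_sum]
    refine Finset.sum_congr rfl fun q' _ => ?_
    rw [tr_sq, Finset.mul_sum, Finset.mul_sum]
    refine Finset.sum_congr rfl fun i _ => ?_
    rw [Finset.mul_sum, Finset.mul_sum]
    refine Finset.sum_congr rfl fun i' _ => ?_
    ring
  have h2 : ((∑ i, ∑ i', w i * w i' * ‖trF μ α (X i - X i')‖ ^ 2 : ℝ) : ℂ) =
      ∑ i, ∑ i', ∑ q ∈ μ.support, ∑ q' ∈ μ.support,
        (w i : ℂ) * w i' * ((μ q : ℂ) * μ q' * e (α * ip (q - q') (X i - X i'))) := by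
    rw [Complex.ofReal_sum]
    refine Finset.sum_congr rfl fun i _ => ?_
    rw [Complex.ofReal_sum]
    refine Finset.sum_congr rfl fun i' _ => ?_
    rw [Complex.ofReal_mul, ← Complex.normSq_eq_norm_sq, ← Complex.mul_conj, trF_sum, map_sum,
      Finset.sum_mul_sum, Finset.mul_sum]
    refine Finset.sum_congr rfl fun q _ => ?_
    rw [Finset.mul_sum]
    refine Finset.sum_congr rfl fun q' _ => ?_
    rw [map_mul, Complex.conj_ofReal, conj_e, ip_sub_left]
    have h : (α * ((ip q (X i - X i') - ip q' (X i - X i') : ℤ) : ℝ)) =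
        α * ((ip q (X i - X i') : ℤ) : ℝ) + -(α * ((ip q' (X i - X i') : ℤ) : ℝ)) := by
      push_cast; ring
    rw [h, e_add]
    push_cast
    ring
  rw [h1, h2]
  calc _ = ∑ q ∈ μ.support, ∑ i, ∑ q' ∈ μ.support, ∑ i',
        (w i : ℂ) * w i' * ((μ q : ℂ) * μ q' * e (α * ip (q - q') (X i - X i'))) :=
        Finset.sum_congr rfl fun j _ => Finset.sum_comm
    _ = ∑ i, ∑ q ∈ μ.support, ∑ q' ∈ μ.support, ∑ i',
        (w i : ℂ) * w i' * ((μ q : ℂ) * μ q' * e (α * ip (q - q') (X i - X i'))) :=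
        Finset.sum_comm
    _ = ∑ i, ∑ q ∈ μ.support, ∑ i', ∑ q' ∈ μ.support,
        (w i : ℂ) * w i' * ((μ q : ℂ) * μ q' * e (α * ip (q - q') (X i - X i'))) :=
        Finset.sum_congr rfl fun i _ => Finset.sum_congr rfl fun j _ => Finset.sum_comm
    _ = _ := Finset.sum_congr rfl fun i _ => Finset.sum_comm

theorem power_moment (w : I → ℝ) (hw : ∀ i, 0 ≤ w i) (hw1 : ∑ i, w i = 1)
    (a : I → I → ℝ) (ha : ∀ i i', 0 ≤ a i i') (m : ℕ) :
    (∑ i, ∑ i', w i * w i' * a i i') ^ m ≤ ∑ i, ∑ i', w i * w i' * a i i' ^ m := by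
  have h1 : ∀ f : I → I → ℝ, ∑ i, ∑ i', w i * w i' * f i i' =
      ∑ k : I × I, (w k.1 * w k.2) * f k.1 k.2 := by
    intro f
    rw [Fintype.sum_prod_type]
  rw [h1, h1 (fun i i' => a i i' ^ m)]
  apply Real.pow_arith_mean_le_arith_mean_pow univ (fun k : I × I => w k.1 * w k.2)
    (fun k : I × I => a k.1 k.2)
  · intro k _; exact mul_nonneg (hw _) (hw _)
  · rw [Fintype.sum_prod_type]
    simp only
    rw [← Finset.sum_mul_sum, hw1, one_mul]
  · intro k _; exact ha _ _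

theorem trF_add_law (μ ν : G n →₀ ℝ) (β : ℝ) (z : G n) :
    trF (μ + ν) β z = trF μ β z + trF ν β z := by
  unfold trF
  exact Finsupp.sum_add_index' (by simp) (by intros; push_cast; ring)

theorem trF_smul_law (c : ℝ) (μ : G n →₀ ℝ) (β : ℝ) (z : G n) :
    trF (c • μ) β z = c * trF μ β z := by
  unfold trF
  rw [Finsupp.sum_smul_index (by simp)]
  simp only [Finsupp.sum, Finset.mul_sum]
  exact Finset.sum_congr rfl fun p _ => by push_cast; ring

theorem trF_finset_sum_law {K : Type*} (s : Finset K) (μ : K → (G n →₀ ℝ)) (β : ℝ) (z : G n) :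
    trF (∑ k ∈ s, μ k) β z = ∑ k ∈ s, trF (μ k) β z := by
  classical
  induction s using Finset.induction_on with
  | empty => simp [trF]
  | insert a s ha ih => rw [Finset.sum_insert ha, Finset.sum_insert ha, trF_add_law, ih]

theorem trF_shift (μ : G n →₀ ℝ) (c : G n) (β : ℝ) (z : G n) :
    trF (μ.mapDomain (fun p => p + c)) β z = e (β * ip c z) * trF μ β z := by
  unfold trF
  rw [Finsupp.sum_mapDomain_index (by simp) (by intros; push_cast; ring)]
  simp only [Finsupp.sum, Finset.mul_sum]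
  refine Finset.sum_congr rfl fun p _ => ?_
  rw [ip_add_left]
  have h : (β * ((ip p z + ip c z : ℤ) : ℝ)) =
      β * ((ip p z : ℤ) : ℝ) + β * ((ip c z : ℤ) : ℝ) := by
    push_cast; ring
  rw [h, e_add]
  ring

theorem trF_L {K : Type*} [Fintype K] (u : K → ℝ) (b : K → G n) (N : ℕ) (α : ℝ) (z : G n) :
    trF (L u b N) α z = (∑ k, (u k : ℂ) * e (α * ip (b k) z)) ^ N := by
  induction N with
  | zero => simp [trF, L]
  | succ N ih =>
    rw [L, trF_finset_sum_law, pow_succ', Finset.sum_mul]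
    refine Finset.sum_congr rfl fun k _ => ?_
    rw [trF_smul_law, trF_shift, ih]
    ring

theorem walk_value (w : I → ℝ) (X : I → G n) (v : J → ℝ) (Y : J → G n) (α : ℝ) (T : ℕ) :
    Ex (L (du v) (db Y) T) (fun s => ‖tr w X α s‖ ^ 2)
      = ∑ i, ∑ i', w i * w i' * (‖tr v Y α (X i - X i')‖ ^ 2) ^ T := by
  apply Complex.ofReal_injective
  have h1 : ((Ex (L (du v) (db Y) T) (fun s => ‖tr w X α s‖ ^ 2) : ℝ) : ℂ) =
      ∑ q ∈ (L (du v) (db Y) T).support, ∑ i, ∑ i',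
        (w i : ℂ) * w i' * (((L (du v) (db Y) T) q : ℂ) * e (α * ip q (X i - X i'))) := by
    rw [Ex_ofReal]
    refine Finset.sum_congr rfl fun q _ => ?_
    rw [tr_sq, Finset.mul_sum]
    refine Finset.sum_congr rfl fun i _ => ?_
    rw [Finset.mul_sum]
    refine Finset.sum_congr rfl fun i' _ => ?_
    ring
  rw [h1, Complex.ofReal_sum, Finset.sum_comm]
  refine Finset.sum_congr rfl fun i _ => ?_
  rw [Complex.ofReal_sum, Finset.sum_comm]
  refine Finset.sum_congr rfl fun i' _ => ?_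
  rw [← Finset.mul_sum, ← trF_sum, trF_L, du_char]
  push_cast
  ring

theorem walk_ge (w : I → ℝ) (X : I → G n) (v : J → ℝ) (Y : J → G n)
    (hw : ∀ i, 0 ≤ w i) (hw1 : ∑ i, w i = 1) (α : ℝ) (T : ℕ) :
    Q w X v Y α ^ T ≤ Ex (L (du v) (db Y) T) (fun s => ‖tr w X α s‖ ^ 2) := by
  rw [walk_value, Q_symm]
  exact power_moment w hw hw1 (fun i i' => ‖tr v Y α (X i - X i')‖ ^ 2)
    (fun i i' => sq_nonneg _) T

end Pool.Agent.Lib.NT.Mul
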