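import Pool.Agent.Lib.MP_0430e4_lc.NT.MulDefs

/-!
MULTIPLES theorem, module C (60 minutes): positivity and the comparison.

For functions of z (z runs over the differences X i - X i') the mean value
   M F = sum_{i,i'} w_i w_i' F (X i - X i')
is nonnegative (real part) on characters: M (e (alpha <s, .>)) = ‖tr w X alpha s‖^2 >= 0.
POSITIVE functions: P = the smallest set of functions G n -> C containing all c * e (alpha <s, .>)
(c >= 0 real, s in G n), closed under sums; it is closed under products since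
e(alpha<s,z>) e(alpha<t,z>) = e(alpha<s+t,z>).  So: 0 <= Re (M F) for F in P.

COMPARISON.  Let mu(q) <= c1 U(q - b) and mu(q) <= c2 U(q) for all q (mu, U >= 0 finitely supported).
  F1 = trF U alpha z * e (alpha <b,z>) has coefficients U(q - b), so c1 F1 - trF mu alpha is in P;
  F2 = conj (trF U alpha z) has coefficients U(q) at -q, so c2 F2 - conj (trF mu alpha) is in P.
  For positive A, B, A', B' with A - A', B - B' positive: A^m B^m - A'^m B'^m is positive
  (telescoping: A B - A' B' = (A - A') B + A' (B - B')).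
Hence (c1 F1)^m (c2 F2)^m - (trF mu)^m (conj trF mu)^m is positive, and its mean value has
nonnegative real part:
   sum w w' ‖trF mu‖^(2m) <= (c1 c2)^m Re sum w w' ‖trF U‖^(2m) e (m alpha <b, z>).

SUGGESTED Lean route: define inductively
  inductive Pos (alpha) : (G n -> C) -> Prop
   | zero : Pos 0 | char (c : R) (hc : 0 <= c) (s : G n) : Pos (fun z => c * e (alpha * ip s z))
   | add : Pos F -> Pos H -> Pos (fun z => F z + H z)
and prove Pos.mul by double induction; a Finset sum of positives is positive.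
Both trF mu and c1 F1 - trF mu are finite sums over supports (use s = supp mu ∪ shifted supp U, or
Finsupp: (U.mapDomain (. + b)) and the Finsupp c1 • U.mapDomain (. + b) - mu, with
trF (additive in mu) of a Finsupp with nonnegative values is positive).
-/

set_option maxHeartbeats 400000

namespace Pool.Agent.Lib.NT.Mul

open Finset

/-- sums of characters with nonnegative coefficients -/
inductive CPos {n : ℕ} (α : ℝ) : (G n → ℂ) → Prop
  | zero : CPos α (fun _ => 0)
  | char (c : ℝ) (hc : 0 ≤ c) (s : G n) : CPos α (fun z => (c : ℂ) * e (α * ip s z))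
  | add {F H : G n → ℂ} (hF : CPos α F) (hH : CPos α H) : CPos α (fun z => F z + H z)

private theorem cp_congr {n : ℕ} {α : ℝ} {F H : G n → ℂ} (hF : CPos α F) (h : ∀ z, H z = F z) :
    CPos α H := by
  have h1 : H = F := funext h
  rw [h1]
  exact hF

private theorem cp_mul_char {n : ℕ} {α : ℝ} {H : G n → ℂ} (hH : CPos α H) (c : ℝ) (hc : 0 ≤ c)
    (s : G n) : CPos α (fun z => ((c : ℂ) * e (α * ip s z)) * H z) := by
  induction hH with
  | zero => exact cp_congr CPos.zero (fun z => by ring)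
  | char d hd t =>
    refine cp_congr (CPos.char (c * d) (mul_nonneg hc hd) (s + t)) (fun z => ?_)
    have h1 : α * ((ip (s + t) z : ℤ) : ℝ) = α * ip s z + α * ip t z := by
      rw [ip_add_left]
      push_cast
      ring
    rw [h1, e_add]
    push_cast
    ring
  | add h1 h2 ih1 ih2 => exact cp_congr (CPos.add ih1 ih2) (fun z => by ring)

private theorem cp_mul {n : ℕ} {α : ℝ} {F H : G n → ℂ} (hF : CPos α F) (hH : CPos α H) :
    CPos α (fun z => F z * H z) := by
  induction hF with
  | zero => exact cp_congr CPos.zero (fun z => by ring)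
  | char c hc s => exact cp_mul_char hH c hc s
  | add h1 h2 ih1 ih2 => exact cp_congr (CPos.add ih1 ih2) (fun z => by ring)

private theorem cp_one {n : ℕ} {α : ℝ} : CPos α (fun _ : G n => (1 : ℂ)) := by
  refine cp_congr (CPos.char 1 zero_le_one 0) (fun z => ?_)
  simp

private theorem cp_pow {n : ℕ} {α : ℝ} {F : G n → ℂ} (hF : CPos α F) (m : ℕ) :
    CPos α (fun z => F z ^ m) := by
  induction m with
  | zero => exact cp_congr cp_one (fun z => by simp)
  | succ m ih => exact cp_congr (cp_mul ih hF) (fun z => by rw [pow_succ])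

private theorem cp_sum {n : ℕ} {α : ℝ} {K : Type*} (s : Finset K) {F : K → G n → ℂ}
    (hF : ∀ k ∈ s, CPos α (F k)) : CPos α (fun z => ∑ k ∈ s, F k z) := by
  classical
  induction s using Finset.induction_on with
  | empty => exact cp_congr CPos.zero (fun z => by simp)
  | insert a s ha ih =>
    refine cp_congr (CPos.add (hF a (Finset.mem_insert_self a s))
      (ih (fun k hk => hF k (Finset.mem_insert_of_mem hk)))) (fun z => ?_)
    rw [Finset.sum_insert ha]

private theorem cp_conj {n : ℕ} {α : ℝ} {F : G n → ℂ} (hF : CPos α F) :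
    CPos α (fun z => (starRingEnd ℂ) (F z)) := by
  induction hF with
  | zero => exact cp_congr CPos.zero (fun z => by simp)
  | char c hc s =>
    refine cp_congr (CPos.char c hc (-s)) (fun z => ?_)
    have h1 : α * ((ip (-s) z : ℤ) : ℝ) = -(α * ip s z) := by
      rw [ip_neg_left]
      push_cast
      ring
    rw [map_mul, conj_e, Complex.conj_ofReal, h1]
  | add h1 h2 ih1 ih2 => exact cp_congr (CPos.add ih1 ih2) (fun z => by rw [map_add])

private theorem cp_trF {n : ℕ} {α : ℝ} {μ : G n →₀ ℝ} (hμ : ∀ p, 0 ≤ μ p) :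
    CPos α (fun z => trF μ α z) := by
  unfold trF Finsupp.sum
  exact cp_sum _ (fun p _ => CPos.char (μ p) (hμ p) p)

private theorem trF_add {n : ℕ} (α : ℝ) (μ ν : G n →₀ ℝ) (z : G n) :
    trF (μ + ν) α z = trF μ α z + trF ν α z := by
  unfold trF
  exact Finsupp.sum_add_index' (by simp) (by intros; push_cast; ring)

private theorem trF_smul {n : ℕ} (α : ℝ) (c : ℝ) (μ : G n →₀ ℝ) (z : G n) :
    trF (c • μ) α z = c * trF μ α z := by
  unfold trF
  rw [Finsupp.sum_smul_index (by simp)]
  simp only [Finsupp.sum, Finset.mul_sum]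
  exact Finset.sum_congr rfl fun p _ => by push_cast; ring

private theorem trF_shift {n : ℕ} (α : ℝ) (μ : G n →₀ ℝ) (b z : G n) :
    trF (μ.mapDomain (fun p => p + b)) α z = trF μ α z * e (α * ip b z) := by
  unfold trF
  rw [Finsupp.sum_mapDomain_index (by simp) (by intros; push_cast; ring)]
  simp only [Finsupp.sum, Finset.sum_mul]
  refine Finset.sum_congr rfl fun p _ => ?_
  have h1 : α * ((ip (p + b) z : ℤ) : ℝ) = α * ip p z + α * ip b z := by
    rw [ip_add_left]
    push_cast
    ring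
  rw [h1, e_add]
  ring

private theorem cp_diff {n : ℕ} {α : ℝ} {μ ν : G n →₀ ℝ} (h : ∀ q, μ q ≤ ν q) :
    CPos α (fun z => trF ν α z - trF μ α z) := by
  have h0 : ∀ q, 0 ≤ (ν - μ) q := fun q => by
    rw [Finsupp.sub_apply]
    exact sub_nonneg.2 (h q)
  refine cp_congr (cp_trF h0) (fun z => ?_)
  have h1 := trF_add α (ν - μ) μ z
  rw [sub_add_cancel] at h1
  rw [h1]
  ring

/-- the mean value of a positive function has nonnegative real part -/
private theorem cp_mean {n : ℕ} {I : Type*} [Fintype I] (w : I → ℝ) (X : I → G n)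
    {α : ℝ} {F : G n → ℂ} (hF : CPos α F) :
    0 ≤ (∑ i, ∑ i', (w i : ℂ) * w i' * F (X i - X i')).re := by
  induction hF with
  | zero => simp
  | char c hc s =>
    have h1 : (∑ i, ∑ i', (w i : ℂ) * w i' * ((c : ℂ) * e (α * ip s (X i - X i')))) =
        (c : ℂ) * ((∑ i, (w i : ℂ) * e (α * ip s (X i))) *
          (starRingEnd ℂ) (∑ i, (w i : ℂ) * e (α * ip s (X i)))) := by
      rw [map_sum, Finset.sum_mul_sum, Finset.mul_sum]
      refine Finset.sum_congr rfl fun i _ => ?_
      rw [Finset.mul_sum]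
      refine Finset.sum_congr rfl fun i' _ => ?_
      have h2 : α * ((ip s (X i - X i') : ℤ) : ℝ) = α * ip s (X i) + -(α * ip s (X i')) := by
        rw [ip_sub_right]
        push_cast
        ring
      rw [h2, e_add, map_mul, conj_e, Complex.conj_ofReal]
      ring
    rw [h1, Complex.mul_conj, ← Complex.ofReal_mul, Complex.ofReal_re]
    exact mul_nonneg hc (Complex.normSq_nonneg _)
  | add h1 h2 ih1 ih2 =>
    have h3 : ∀ {F H : G n → ℂ}, (∑ i, ∑ i', (w i : ℂ) * w i' * (F (X i - X i') + H (X i - X i'))) =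
        (∑ i, ∑ i', (w i : ℂ) * w i' * F (X i - X i')) +
          ∑ i, ∑ i', (w i : ℂ) * w i' * H (X i - X i') := by
      intro F H
      rw [← Finset.sum_add_distrib]
      refine Finset.sum_congr rfl fun i _ => ?_
      rw [← Finset.sum_add_distrib]
      exact Finset.sum_congr rfl fun i' _ => by ring
    rw [h3, Complex.add_re]
    exact add_nonneg ih1 ih2

private theorem cp_pow_diff {n : ℕ} {α : ℝ} {P P' : G n → ℂ} (hP : CPos α P) (hP' : CPos α P')
    (h : CPos α (fun z => P z - P' z)) (m : ℕ) : CPos α (fun z => P z ^ m - P' z ^ m) := by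
  induction m with
  | zero => exact cp_congr CPos.zero (fun z => by simp)
  | succ m ih =>
    exact cp_congr (CPos.add (cp_mul ih hP) (cp_mul (cp_pow hP' m) h)) (fun z => by ring)

theorem comparison {n : ℕ} {I : Type*} [Fintype I] (w : I → ℝ) (X : I → G n)
    (hw : ∀ i, 0 ≤ w i) (α : ℝ) (μ U : G n →₀ ℝ) (hμ : ∀ p, 0 ≤ μ p) (hU : ∀ p, 0 ≤ U p)
    (b : G n) (c1 c2 : ℝ) (hc1 : 0 ≤ c1) (hc2 : 0 ≤ c2)
    (h1 : ∀ q, μ q ≤ c1 * U (q - b)) (h2 : ∀ q, μ q ≤ c2 * U q) (m : ℕ) :
    ∑ i, ∑ i', w i * w i' * (‖trF μ α (X i - X i')‖ ^ 2) ^ m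
      ≤ (c1 * c2) ^ m * (∑ i, ∑ i', (w i : ℂ) * w i' *
          (((‖trF U α (X i - X i')‖ ^ 2) ^ m : ℝ) : ℂ) *
            e (m * α * ip b (X i - X i'))).re := by
  classical
  have hV1 : ∀ q, (c1 • U.mapDomain (fun p => p + b)) q = c1 * U (q - b) := by
    intro q
    rw [Finsupp.smul_apply, smul_eq_mul]
    congr 1
    have h := Finsupp.mapDomain_apply (f := fun p : G n => p + b)
      (fun x y hxy => by simpa using hxy) U (q - b)
    simpa using h
  have hV2 : ∀ q, (c2 • U) q = c2 * U q := fun q => by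
    rw [Finsupp.smul_apply, smul_eq_mul]
  have hA : CPos α (fun z => trF (c1 • U.mapDomain (fun p => p + b)) α z) :=
    cp_trF (fun q => by rw [hV1]; exact mul_nonneg hc1 (hU _))
  have hB : CPos α (fun z => (starRingEnd ℂ) (trF (c2 • U) α z)) :=
    cp_conj (cp_trF (fun q => by rw [hV2]; exact mul_nonneg hc2 (hU _)))
  have hA' : CPos α (fun z => trF μ α z) := cp_trF hμ
  have hB' : CPos α (fun z => (starRingEnd ℂ) (trF μ α z)) := cp_conj (cp_trF hμ)
  have hAA : CPos α (fun z => trF (c1 • U.mapDomain (fun p => p + b)) α z - trF μ α z) :=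
    cp_diff (fun q => by rw [hV1]; exact h1 q)
  have hBB : CPos α (fun z => (starRingEnd ℂ) (trF (c2 • U) α z) - (starRingEnd ℂ) (trF μ α z)) :=
    cp_congr (cp_conj (cp_diff (fun q => by rw [hV2]; exact h2 q : ∀ q, μ q ≤ (c2 • U) q)))
      (fun z => by rw [map_sub])
  have hD : CPos α (fun z => (trF (c1 • U.mapDomain (fun p => p + b)) α z *
      (starRingEnd ℂ) (trF (c2 • U) α z)) - (trF μ α z * (starRingEnd ℂ) (trF μ α z))) :=
    cp_congr (CPos.add (cp_mul hAA hB) (cp_mul hA' hBB)) (fun z => by ring)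
  have hPm := cp_pow_diff (cp_mul hA hB) (cp_mul hA' hB') hD m
  have hmean := cp_mean w X hPm
  have e1 : ∀ z : G n, (trF (c1 • U.mapDomain (fun p => p + b)) α z *
      (starRingEnd ℂ) (trF (c2 • U) α z)) ^ m - (trF μ α z * (starRingEnd ℂ) (trF μ α z)) ^ m =
      (((c1 * c2) ^ m : ℝ) : ℂ) * ((((‖trF U α z‖ ^ 2) ^ m : ℝ) : ℂ) * e (m * α * ip b z)) -
        (((‖trF μ α z‖ ^ 2) ^ m : ℝ) : ℂ) := by
    intro z
    have e2 : trF μ α z * (starRingEnd ℂ) (trF μ α z) = ((‖trF μ α z‖ ^ 2 : ℝ) : ℂ) := by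
      rw [Complex.mul_conj, Complex.normSq_eq_norm_sq]
    have e3 : trF U α z * (starRingEnd ℂ) (trF U α z) = ((‖trF U α z‖ ^ 2 : ℝ) : ℂ) := by
      rw [Complex.mul_conj, Complex.normSq_eq_norm_sq]
    have e4 : e (m * α * ip b z) = e (α * ip b z) ^ m := by
      rw [← e_nat_mul, mul_assoc]
    have e5 : trF (c1 • U.mapDomain (fun p => p + b)) α z * (starRingEnd ℂ) (trF (c2 • U) α z) =
        ((c1 * c2 : ℝ) : ℂ) * (((‖trF U α z‖ ^ 2 : ℝ) : ℂ) * e (α * ip b z)) := by
      rw [trF_smul, trF_shift, trF_smul, map_mul, Complex.conj_ofReal, ← e3]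
      push_cast
      ring
    rw [e5, e2, e4, mul_pow, mul_pow, ← Complex.ofReal_pow, ← Complex.ofReal_pow,
      ← Complex.ofReal_pow]
  have e6 : (∑ i, ∑ i', (w i : ℂ) * w i' * ((trF (c1 • U.mapDomain (fun p => p + b)) α (X i - X i') *
      (starRingEnd ℂ) (trF (c2 • U) α (X i - X i'))) ^ m -
        (trF μ α (X i - X i') * (starRingEnd ℂ) (trF μ α (X i - X i'))) ^ m)) =
      (((c1 * c2) ^ m : ℝ) : ℂ) * (∑ i, ∑ i', (w i : ℂ) * w i' *
          (((‖trF U α (X i - X i')‖ ^ 2) ^ m : ℝ) : ℂ) *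
            e (m * α * ip b (X i - X i'))) -
      ((∑ i, ∑ i', w i * w i' * (‖trF μ α (X i - X i')‖ ^ 2) ^ m : ℝ) : ℂ) := by
    rw [Complex.ofReal_sum, Finset.mul_sum, ← Finset.sum_sub_distrib]
    refine Finset.sum_congr rfl fun i _ => ?_
    rw [Complex.ofReal_sum, Finset.mul_sum, ← Finset.sum_sub_distrib]
    refine Finset.sum_congr rfl fun i' _ => ?_
    rw [e1]
    push_cast
    ring
  rw [e6, Complex.sub_re, Complex.re_ofReal_mul, Complex.ofReal_re] at hmean
  linarith

end Pool.Agent.Lib.NT.Mul
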