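import Pool.Agent.Lib.MP_0430e4_lc.NT.MulA4
import Pool.Agent.Lib.MP_0430e4_lc.NT.MulB1
import Pool.Agent.Lib.MP_0430e4_lc.NT.MulB2
import Pool.Agent.Lib.MP_0430e4_lc.NT.MulC

/-!
MULTIPLES theorem, module D (60 minutes): assembly.

Fix Q0 = Q w X v Y alpha > 0, u = du v, b = db Y, g s = ‖tr w X alpha s‖^2 (in [0,1] by
norm_tr_le_one), Z = Ex (L u b T) g, Z >= Q0^T > 0 (walk_ge), Z <= 1, so 0 <= log (1/Z) <= lam.
E := 2 (kap + lam + 1).  good_shift gives N < T and r.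
For k let mu_k = ((L N).filter (GOOD k)).mapDomain (. + b k), GOOD k p : L N p <= exp E * L (N+1) (p + b k).
 Ex mu_k F = Ex (L N) (fun p => if GOOD k p then F (p + b k) else 0), mass <= 1, mu_k >= 0,
 m_k := Ex mu_k (fun q => g (q + r)), sum_k u_k m_k >= Z/2.
U := (1/2) (L N + L (N+1)).  mu_k q <= 2 U (q - b k) (mu_k q <= L N (q - b k)),
                             mu_k q <= 2 exp E U q (mu_k q != 0 => GOOD k (q - b k) => mu_k q = L N (q - b k) <= exp E L (N+1) q).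
 energy + second_moment + power_moment (a = ‖trF mu_k‖^2):
   m_k^(4m) <= sum_{i,i'} w w' (‖trF mu_k alpha z‖^2)^m
            <= (4 exp E)^m Re sum w w' (‖trF U‖^2)^m e (m alpha <b k, z>)        (comparison).
 Multiply by u_k, sum over k; sum_k u_k e (m alpha <b k, z>) = ‖tr v Y (m alpha) z‖^2 (du_char):
   sum_k u_k m_k^(4m) <= (4 exp E)^m sum w w' (‖trF U‖^2)^m ‖tr v Y (m alpha) z‖^2
                     <= (4 exp E)^m Q w X v Y (m alpha)         (‖trF U‖ <= mass of U = 1; Q_symm).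
 Left side >= (sum_k u_k m_k)^(4m) >= (Z/2)^(4m) (Real.pow_arith_mean_le_arith_mean_pow).
 So Q(m alpha) >= (Z/2)^(4m) / (4 exp E)^m >= exp (-(4m) lam - 4m log 2 - m log 4 - m E), and
 4 log 2 + log 4 = 6 log 2 <= 5 (Real.log_two_lt_d9), E = 2 kap + 2 lam + 2: total m (2 kap + 6 lam + 7).
-/

set_option maxHeartbeats 400000

namespace Pool.Agent.Lib.NT.Mul

open Finset

private theorem mulD_filter {n : ℕ} (μ : G n →₀ ℝ) (P : G n → Prop) [DecidablePred P]
    (F : G n → ℝ) : Ex (μ.filter P) F = Ex μ (fun p => if P p then F p else 0) := by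
  have hsub : (μ.filter P).support ⊆ μ.support := by
    rw [Finsupp.support_filter]
    exact Finset.filter_subset _ _
  rw [Ex_eq_sum (μ.filter P) F μ.support hsub]
  unfold Ex Finsupp.sum
  refine Finset.sum_congr rfl fun p _ => ?_
  show (μ.filter P) p * F p = μ p * (if P p then F p else 0)
  rw [Finsupp.filter_apply]
  by_cases h : P p
  · rw [if_pos h, if_pos h]
  · rw [if_neg h, if_neg h, mul_zero, zero_mul]

private theorem mulD_norm {n : ℕ} (μ : G n →₀ ℝ) (hμ : ∀ p, 0 ≤ μ p) (β : ℝ) (z : G n) :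
    ‖trF μ β z‖ ≤ Ex μ (fun _ => 1) := by
  unfold trF Ex Finsupp.sum
  refine (norm_sum_le _ _).trans (le_of_eq ?_)
  refine Finset.sum_congr rfl fun p _ => ?_
  rw [norm_mul, norm_e, Complex.norm_real, Real.norm_of_nonneg (hμ p)]

private theorem mulD_core {n : ℕ} {I J : Type*} [Fintype I] [Fintype J] (w : I → ℝ) (X : I → G n)
    (v : J → ℝ) (Y : J → G n) (hw : ∀ i, 0 ≤ w i) (hw1 : ∑ i, w i = 1)
    (α : ℝ) (m : ℕ) (μ : J × J → (G n →₀ ℝ)) (U : G n →₀ ℝ) (r : G n) (c : ℝ) (hc : 0 ≤ c)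
    (hu : ∀ k, 0 ≤ du v k) (hu1 : ∑ k, du v k = 1)
    (hμ : ∀ k p, 0 ≤ μ k p) (hμ1 : ∀ k, Ex (μ k) (fun _ => 1) ≤ 1)
    (hU : ∀ p, 0 ≤ U p) (hU1 : Ex U (fun _ => 1) ≤ 1)
    (h1 : ∀ k q, μ k q ≤ 2 * U (q - db Y k)) (h2 : ∀ k q, μ k q ≤ c * U q) :
    (∑ k, du v k * Ex (μ k) (fun q => ‖tr w X α (q + r)‖ ^ 2)) ^ (4 * m) ≤
      (2 * c) ^ m * Q w X v Y (m * α) := by
  have hm0 : ∀ k, 0 ≤ Ex (μ k) (fun q => ‖tr w X α (q + r)‖ ^ 2) := fun k =>
    Ex_nonneg _ (hμ k) _ (fun _ _ => sq_nonneg _)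
  have s1 : (∑ k, du v k * Ex (μ k) (fun q => ‖tr w X α (q + r)‖ ^ 2)) ^ (4 * m) ≤
      ∑ k, du v k * Ex (μ k) (fun q => ‖tr w X α (q + r)‖ ^ 2) ^ (4 * m) :=
    Real.pow_arith_mean_le_arith_mean_pow univ _ _ (fun k _ => hu k) hu1 (fun k _ => hm0 k) _
  have s2 : ∀ k, Ex (μ k) (fun q => ‖tr w X α (q + r)‖ ^ 2) ^ (4 * m) ≤
      (2 * c) ^ m * (∑ i, ∑ i', (w i : ℂ) * w i' *
          (((‖trF U α (X i - X i')‖ ^ 2) ^ m : ℝ) : ℂ) *
            e (m * α * ip (db Y k) (X i - X i'))).re := by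
    intro k
    have t1 := energy w X hw hw1 α (μ k) (hμ k) (hμ1 k) r
    rw [second_moment] at t1
    have t2 := power_moment w hw hw1 (fun i i' => ‖trF (μ k) α (X i - X i')‖ ^ 2)
      (fun i i' => sq_nonneg _) m
    have t3 := comparison w X hw α (μ k) U (hμ k) hU (db Y k) 2 c (by norm_num) hc
      (h1 k) (h2 k) m
    rw [pow_mul]
    exact (pow_le_pow_left₀ (pow_nonneg (hm0 k) 4) t1 m).trans (t2.trans t3)
  have s3 : ∑ k, (du v k : ℂ) * (∑ i, ∑ i', (w i : ℂ) * w i' *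
          (((‖trF U α (X i - X i')‖ ^ 2) ^ m : ℝ) : ℂ) *
            e (m * α * ip (db Y k) (X i - X i'))) =
      ((∑ i, ∑ i', w i * w i' * ((‖trF U α (X i - X i')‖ ^ 2) ^ m *
        ‖tr v Y (m * α) (X i - X i')‖ ^ 2) : ℝ) : ℂ) := by
    have e1 : ∀ k, (du v k : ℂ) * (∑ i, ∑ i', (w i : ℂ) * w i' *
          (((‖trF U α (X i - X i')‖ ^ 2) ^ m : ℝ) : ℂ) *
            e (m * α * ip (db Y k) (X i - X i'))) =
        ∑ i, ∑ i', (w i : ℂ) * w i' * (((‖trF U α (X i - X i')‖ ^ 2) ^ m : ℝ) : ℂ) *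
          ((du v k : ℂ) * e (m * α * ip (db Y k) (X i - X i'))) := by
      intro k
      rw [Finset.mul_sum]
      refine Finset.sum_congr rfl fun i _ => ?_
      rw [Finset.mul_sum]
      exact Finset.sum_congr rfl fun i' _ => by ring
    rw [Finset.sum_congr rfl fun k _ => e1 k, Finset.sum_comm, Complex.ofReal_sum]
    refine Finset.sum_congr rfl fun i _ => ?_
    rw [Finset.sum_comm, Complex.ofReal_sum]
    refine Finset.sum_congr rfl fun i' _ => ?_
    rw [← Finset.mul_sum, du_char, ← Complex.ofReal_mul, ← Complex.ofReal_mul,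
      ← Complex.ofReal_mul]
    congr 1
    ring
  have s4 : ∑ k, du v k * Ex (μ k) (fun q => ‖tr w X α (q + r)‖ ^ 2) ^ (4 * m) ≤
      (2 * c) ^ m * ∑ i, ∑ i', w i * w i' * ((‖trF U α (X i - X i')‖ ^ 2) ^ m *
        ‖tr v Y (m * α) (X i - X i')‖ ^ 2) := by
    have e2 : (∑ k, (du v k : ℂ) * (∑ i, ∑ i', (w i : ℂ) * w i' *
          (((‖trF U α (X i - X i')‖ ^ 2) ^ m : ℝ) : ℂ) *
            e (m * α * ip (db Y k) (X i - X i')))).re =
        ∑ k, du v k * (∑ i, ∑ i', (w i : ℂ) * w i' *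
          (((‖trF U α (X i - X i')‖ ^ 2) ^ m : ℝ) : ℂ) *
            e (m * α * ip (db Y k) (X i - X i'))).re := by
      rw [Complex.re_sum]
      exact Finset.sum_congr rfl fun k _ => Complex.re_ofReal_mul _ _
    rw [s3, Complex.ofReal_re] at e2
    rw [e2, Finset.mul_sum]
    refine Finset.sum_le_sum fun k _ => ?_
    have := mul_le_mul_of_nonneg_left (s2 k) (hu k)
    refine this.trans (le_of_eq ?_)
    ring
  have s5 : ∑ i, ∑ i', w i * w i' * ((‖trF U α (X i - X i')‖ ^ 2) ^ m *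
        ‖tr v Y (m * α) (X i - X i')‖ ^ 2) ≤ Q w X v Y (m * α) := by
    rw [Q_symm]
    refine Finset.sum_le_sum fun i _ => Finset.sum_le_sum fun i' _ => ?_
    refine mul_le_mul_of_nonneg_left ?_ (mul_nonneg (hw i) (hw i'))
    refine mul_le_of_le_one_left (sq_nonneg _) ?_
    refine pow_le_one₀ (sq_nonneg _) ?_
    exact pow_le_one₀ (norm_nonneg _) ((mulD_norm U hU α _).trans hU1)
  exact s1.trans (s4.trans (mul_le_mul_of_nonneg_left s5 (by positivity)))

/-- MULTIPLES THEOREM. -/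
theorem multiples {n : ℕ} {I J : Type*} [Fintype I] [Fintype J] (w : I → ℝ) (X : I → G n)
    (v : J → ℝ) (Y : J → G n) (hw : ∀ i, 0 ≤ w i) (hw1 : ∑ i, w i = 1)
    (hv : ∀ j, 0 ≤ v j) (hv1 : ∑ j, v j = 1) (hY : ∀ j j' i, |Y j i - Y j' i| ≤ 1)
    (α : ℝ) (hQ : 0 < Q w X v Y α) (m T : ℕ) (hT : 1 ≤ T) (lam kap : ℝ)
    (hlam : lam = T * Real.log (1 / Q w X v Y α))
    (hkap : kap = (n * Real.log (2 * T + 1) + lam) / T) :
    Real.exp (-(m * (2 * kap + 6 * lam + 7))) ≤ Q w X v Y (m * α) := by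
  classical
  have hu : ∀ k, 0 ≤ du v k := fun k => mul_nonneg (hv _) (hv _)
  have hu1 : ∑ k, du v k = 1 := by
    unfold du
    rw [Fintype.sum_prod_type]
    simp only
    rw [← Finset.sum_mul_sum, hv1, one_mul]
  have hb : ∀ k i, |db Y k i| ≤ 1 := fun k i => hY k.1 k.2 i
  have hg : ∀ s : G n, 0 ≤ ‖tr w X α s‖ ^ 2 := fun s => sq_nonneg _
  have hg1 : ∀ s : G n, ‖tr w X α s‖ ^ 2 ≤ 1 := fun s =>
    pow_le_one₀ (norm_nonneg _) (norm_tr_le_one w X hw hw1 α s)
  obtain ⟨Z, hZ⟩ : ∃ Z : ℝ, Z = Ex (L (du v) (db Y) T) (fun s => ‖tr w X α s‖ ^ 2) := ⟨_, rfl⟩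
  have hZQ : Q w X v Y α ^ T ≤ Z := by
    rw [hZ]
    exact walk_ge w X v Y hw hw1 α T
  have hZ0 : 0 < Z := lt_of_lt_of_le (pow_pos hQ T) hZQ
  have hZ1 : Z ≤ 1 := by
    rw [hZ, ← Ex_L_one (du v) (db Y) hu1 T]
    exact Ex_mono _ (fun p => L_nonneg (du v) (db Y) hu T p) _ _ (fun p _ => hg1 p)
  have hlz0 : 0 ≤ Real.log (1 / Z) := Real.log_nonneg (by
    rw [le_div_iff₀ hZ0, one_mul]; exact hZ1)
  have hlz : Real.log (1 / Z) ≤ lam := by
    rw [hlam, one_div, one_div, Real.log_inv, Real.log_inv, mul_neg]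
    have h1 := Real.log_le_log (pow_pos hQ T) hZQ
    rw [Real.log_pow] at h1
    linarith
  have hT0 : (0 : ℝ) < T := by
    have : 0 < T := hT
    exact_mod_cast this
  have hlog0 : 0 ≤ (n : ℝ) * Real.log (2 * T + 1) := by
    refine mul_nonneg (Nat.cast_nonneg n) (Real.log_nonneg ?_)
    linarith
  have hkap0 : 0 ≤ kap := by
    rw [hkap]
    exact div_nonneg (by linarith) hT0.le
  have hE : 2 * ((n * Real.log (2 * T + 1) + Real.log (1 / Z)) / T + Real.log (1 / Z) + 1) ≤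
      2 * (kap + lam + 1) := by
    have h1 : (n * Real.log (2 * T + 1) + Real.log (1 / Z)) / T ≤ kap := by
      rw [hkap]
      exact div_le_div_of_nonneg_right (by linarith) hT0.le
    linarith
  obtain ⟨N, _, r, hr⟩ := good_shift (du v) (db Y) T (fun s => ‖tr w X α s‖ ^ 2) hu hu1 hb hg hg1
    hT Z hZ hZ0 (2 * (kap + lam + 1)) (by linarith) hE
  obtain ⟨μ, hμd⟩ : ∃ μ : J × J → (G n →₀ ℝ), ∀ k, μ k =
      ((L (du v) (db Y) N).filter (fun p => L (du v) (db Y) N p ≤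
        Real.exp (2 * (kap + lam + 1)) * L (du v) (db Y) (N + 1) (p + db Y k))).mapDomain
          (fun p => p + db Y k) := ⟨fun k => _, fun k => rfl⟩
  have hLn : ∀ M q, 0 ≤ L (du v) (db Y) M q := fun M q => L_nonneg (du v) (db Y) hu M q
  have hEx : ∀ k (F : G n → ℝ), Ex (μ k) F = Ex (L (du v) (db Y) N) (fun p =>
      if L (du v) (db Y) N p ≤
        Real.exp (2 * (kap + lam + 1)) * L (du v) (db Y) (N + 1) (p + db Y k)
        then F (p + db Y k) else 0) := by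
    intro k F
    rw [hμd, Ex_mapDomain, mulD_filter]
  have hval : ∀ k q, μ k q = if L (du v) (db Y) N (q - db Y k) ≤
        Real.exp (2 * (kap + lam + 1)) * L (du v) (db Y) (N + 1) q
        then L (du v) (db Y) N (q - db Y k) else 0 := by
    intro k q
    have h := Finsupp.mapDomain_apply (f := fun p : G n => p + db Y k)
      (fun x y hxy => by simpa using hxy)
      ((L (du v) (db Y) N).filter (fun p => L (du v) (db Y) N p ≤
        Real.exp (2 * (kap + lam + 1)) * L (du v) (db Y) (N + 1) (p + db Y k))) (q - db Y k)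
    have h' : q - db Y k + db Y k = q := sub_add_cancel _ _
    simp only [h'] at h
    rw [hμd, h, Finsupp.filter_apply]
    simp only [h']
  have hμ0 : ∀ k p, 0 ≤ μ k p := by
    intro k p
    rw [hval]
    split_ifs
    · exact hLn _ _
    · exact le_refl 0
  have hμ1 : ∀ k, Ex (μ k) (fun _ => 1) ≤ 1 := by
    intro k
    rw [hEx]
    refine (Ex_mono _ (hLn N) _ (fun _ => 1) (fun p _ => ?_)).trans
      (Ex_L_one (du v) (db Y) hu1 N).le
    show (if L (du v) (db Y) N p ≤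
        Real.exp (2 * (kap + lam + 1)) * L (du v) (db Y) (N + 1) (p + db Y k)
        then (1 : ℝ) else 0) ≤ 1
    split_ifs
    · exact le_refl 1
    · exact zero_le_one
  have hUv : ∀ q, ((1 / 2 : ℝ) • (L (du v) (db Y) N + L (du v) (db Y) (N + 1))) q =
      1 / 2 * (L (du v) (db Y) N q + L (du v) (db Y) (N + 1) q) := by
    intro q
    rw [Finsupp.smul_apply, Finsupp.add_apply, smul_eq_mul]
  have hcore := mulD_core w X v Y hw hw1 α m μ
    ((1 / 2 : ℝ) • (L (du v) (db Y) N + L (du v) (db Y) (N + 1))) r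
    (2 * Real.exp (2 * (kap + lam + 1))) (by positivity) hu hu1 hμ0 hμ1
    (fun q => by
      rw [hUv]
      have h1 := hLn N q
      have h2 := hLn (N + 1) q
      linarith)
    (by
      rw [Ex_smul_law, Ex_add_law, Ex_L_one (du v) (db Y) hu1, Ex_L_one (du v) (db Y) hu1]
      norm_num)
    (fun k q => by
      rw [hUv, hval]
      have h1 := hLn N (q - db Y k)
      have h2 := hLn (N + 1) (q - db Y k)
      split_ifs
      · linarith
      · linarith)
    (fun k q => by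
      rw [hUv, hval]
      have h1 := mul_nonneg (Real.exp_pos (2 * (kap + lam + 1))).le (hLn N q)
      have h2 := mul_nonneg (Real.exp_pos (2 * (kap + lam + 1))).le (hLn (N + 1) q)
      split_ifs with h3
      · linarith
      · linarith)
  have hsum : ∑ k, du v k * Ex (μ k) (fun q => ‖tr w X α (q + r)‖ ^ 2) =
      ∑ k, du v k * Ex (L (du v) (db Y) N) (fun p =>
      if L (du v) (db Y) N p ≤
        Real.exp (2 * (kap + lam + 1)) * L (du v) (db Y) (N + 1) (p + db Y k)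
        then ‖tr w X α (p + db Y k + r)‖ ^ 2 else 0) :=
    Finset.sum_congr rfl fun k _ => by rw [hEx]
  rw [hsum] at hcore
  have hpow : (Z / 2) ^ (4 * m) ≤
      (2 * (2 * Real.exp (2 * (kap + lam + 1)))) ^ m * Q w X v Y (m * α) :=
    (pow_le_pow_left₀ (by positivity) hr (4 * m)).trans hcore
  have hZe : Z / 2 = Real.exp (-(Real.log (1 / Z) + Real.log 2)) := by
    rw [neg_add, Real.exp_add, one_div, Real.log_inv, neg_neg, Real.exp_log hZ0, Real.exp_neg,
      Real.exp_log (by norm_num : (0 : ℝ) < 2), div_eq_mul_inv]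
  have hCe : 2 * (2 * Real.exp (2 * (kap + lam + 1))) =
      Real.exp (2 * Real.log 2 + 2 * (kap + lam + 1)) := by
    rw [Real.exp_add, two_mul (Real.log 2), Real.exp_add,
      Real.exp_log (by norm_num : (0 : ℝ) < 2)]
    ring
  rw [hZe, hCe, ← Real.exp_nat_mul, ← Real.exp_nat_mul] at hpow
  have hfin : Real.exp (((4 * m : ℕ) : ℝ) * -(Real.log (1 / Z) + Real.log 2) -
      m * (2 * Real.log 2 + 2 * (kap + lam + 1))) ≤ Q w X v Y (m * α) := by
    rw [Real.exp_sub, div_le_iff₀ (Real.exp_pos _), mul_comm (Q w X v Y (m * α))]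
    exact hpow
  refine (Real.exp_le_exp.2 ?_).trans hfin
  have hl2 := Real.log_two_lt_d9
  have hm0 : (0 : ℝ) ≤ m := Nat.cast_nonneg m
  push_cast
  have hkey : 4 * (Real.log (1 / Z) + Real.log 2) + (2 * Real.log 2 + 2 * (kap + lam + 1)) ≤
      2 * kap + 6 * lam + 7 := by
    linarith
  have := mul_le_mul_of_nonneg_left hkey hm0
  linarith

end Pool.Agent.Lib.NT.Mul
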