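import Mathlib

/-!
MULTIPLES THEOREM (helper30, text /team-store/MULTIPLES.md), definitions and the basic calculus of
finitely supported laws on the lattice G n = (Fin n -> Z).

* ip s x        = sum_i s_i x_i
* e t           = exp (2 pi i t)
* tr w X beta s = sum_i w_i e (beta <s, X_i>)              (transform of the weighted family w, X)
* Q w X v Y beta = sum_{j,j'} v_j v_j' |tr w X beta (Y_j - Y_j')|^2
* Ex mu F       = sum_p mu(p) F(p)                         (mu finitely supported)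
* L u b N       = law of b_1 + ... + b_N, the b_i independent with P(b_i = b k) = u k
* trF mu beta z = sum_p mu(p) e (beta <p, z>)
-/

set_option maxHeartbeats 400000

namespace Pool.Agent.Lib.NT.Mul

open Finset

/-- The lattice. -/
abbrev G (n : ℕ) := Fin n → ℤ

/-- The pairing. -/
def ip {n : ℕ} (s x : G n) : ℤ := ∑ i, s i * x i

/-- The additive character. -/
noncomputable def e (t : ℝ) : ℂ := Complex.exp (2 * Real.pi * t * Complex.I)

/-- Transform of a weighted family. -/
noncomputable def tr {n : ℕ} {I : Type*} [Fintype I] (w : I → ℝ) (X : I → G n) (β : ℝ)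
    (s : G n) : ℂ := ∑ i, (w i : ℂ) * e (β * ip s (X i))

/-- The quadruple correlation. -/
noncomputable def Q {n : ℕ} {I J : Type*} [Fintype I] [Fintype J] (w : I → ℝ) (X : I → G n)
    (v : J → ℝ) (Y : J → G n) (β : ℝ) : ℝ :=
  ∑ j, ∑ j', v j * v j' * ‖tr w X β (Y j - Y j')‖ ^ 2

/-- Expectation of a real function. -/
noncomputable def Ex {n : ℕ} (μ : G n →₀ ℝ) (F : G n → ℝ) : ℝ := μ.sum fun p x => x * F p

/-- Expectation of the character: the transform of a finitely supported law. -/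
noncomputable def trF {n : ℕ} (μ : G n →₀ ℝ) (β : ℝ) (z : G n) : ℂ :=
  μ.sum fun p x => (x : ℂ) * e (β * ip p z)

/-- Law of the walk after `N` steps. -/
noncomputable def L {n : ℕ} {K : Type*} [Fintype K] (u : K → ℝ) (b : K → G n) : ℕ → (G n →₀ ℝ)
  | 0 => Finsupp.single 0 1
  | (N + 1) => ∑ k, u k • (L u b N).mapDomain (fun p => p + b k)

/-! ### the pairing -/

theorem ip_comm {n : ℕ} (s x : G n) : ip s x = ip x s := by
  unfold ip; exact Finset.sum_congr rfl fun i _ => mul_comm _ _

theorem ip_add_left {n : ℕ} (s t x : G n) : ip (s + t) x = ip s x + ip t x := by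
  unfold ip; rw [← Finset.sum_add_distrib]
  exact Finset.sum_congr rfl fun i _ => by simp [add_mul]

theorem ip_sub_left {n : ℕ} (s t x : G n) : ip (s - t) x = ip s x - ip t x := by
  unfold ip; rw [← Finset.sum_sub_distrib]
  exact Finset.sum_congr rfl fun i _ => by simp [sub_mul]

theorem ip_add_right {n : ℕ} (s x y : G n) : ip s (x + y) = ip s x + ip s y := by
  rw [ip_comm, ip_add_left, ip_comm x, ip_comm y]

theorem ip_sub_right {n : ℕ} (s x y : G n) : ip s (x - y) = ip s x - ip s y := by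
  rw [ip_comm, ip_sub_left, ip_comm x, ip_comm y]

@[simp] theorem ip_zero_left {n : ℕ} (x : G n) : ip (0 : G n) x = 0 := by simp [ip]

@[simp] theorem ip_zero_right {n : ℕ} (x : G n) : ip x (0 : G n) = 0 := by simp [ip]

theorem ip_nsmul_left {n : ℕ} (m : ℕ) (s x : G n) : ip (m • s) x = m * ip s x := by
  unfold ip; rw [Finset.mul_sum]
  exact Finset.sum_congr rfl fun i _ => by simp [mul_assoc]

theorem ip_neg_left {n : ℕ} (s x : G n) : ip (-s) x = - ip s x := by
  unfold ip; rw [← Finset.sum_neg_distrib]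
  exact Finset.sum_congr rfl fun i _ => by simp

theorem ip_neg_right {n : ℕ} (s x : G n) : ip s (-x) = - ip s x := by
  rw [ip_comm, ip_neg_left, ip_comm]

/-! ### the character -/

theorem e_add (s t : ℝ) : e (s + t) = e s * e t := by
  unfold e; rw [← Complex.exp_add]; congr 1; push_cast; ring

@[simp] theorem e_zero : e 0 = 1 := by simp [e]

theorem norm_e (t : ℝ) : ‖e t‖ = 1 := by
  unfold e
  have : (2 * Real.pi * t * Complex.I : ℂ) = ((2 * Real.pi * t : ℝ) : ℂ) * Complex.I := by
    push_cast; ring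
  rw [this, Complex.norm_exp_ofReal_mul_I]

theorem conj_e (t : ℝ) : (starRingEnd ℂ) (e t) = e (-t) := by
  unfold e
  rw [← Complex.exp_conj]; congr 1
  simp only [map_mul, Complex.conj_ofReal, Complex.conj_I, Complex.ofReal_neg, map_ofNat]
  ring

theorem e_mul_neg (t : ℝ) : e t * e (-t) = 1 := by rw [← e_add]; simp

theorem e_nat_mul (m : ℕ) (t : ℝ) : e (m * t) = e t ^ m := by
  unfold e; rw [← Complex.exp_nat_mul]; congr 1; push_cast; ring

/-! ### expectations -/

theorem Ex_add_fun {n : ℕ} (μ : G n →₀ ℝ) (F H : G n → ℝ) :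
    Ex μ (fun p => F p + H p) = Ex μ F + Ex μ H := by
  simp [Ex, Finsupp.sum, mul_add, Finset.sum_add_distrib]

theorem Ex_const_mul {n : ℕ} (μ : G n →₀ ℝ) (c : ℝ) (F : G n → ℝ) :
    Ex μ (fun p => c * F p) = c * Ex μ F := by
  simp only [Ex, Finsupp.sum, Finset.mul_sum]
  exact Finset.sum_congr rfl fun p _ => by ring

theorem Ex_sum_fun {n : ℕ} {K : Type*} (s : Finset K) (μ : G n →₀ ℝ) (F : K → G n → ℝ) :
    Ex μ (fun p => ∑ k ∈ s, F k p) = ∑ k ∈ s, Ex μ (F k) := by
  simp only [Ex, Finsupp.sum, Finset.mul_sum]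
  rw [Finset.sum_comm]

theorem Ex_mono {n : ℕ} (μ : G n →₀ ℝ) (hμ : ∀ p, 0 ≤ μ p) (F H : G n → ℝ)
    (h : ∀ p, μ p ≠ 0 → F p ≤ H p) : Ex μ F ≤ Ex μ H := by
  unfold Ex Finsupp.sum
  refine Finset.sum_le_sum fun p hp => ?_
  exact mul_le_mul_of_nonneg_left (h p (Finsupp.mem_support_iff.1 hp)) (hμ p)

theorem Ex_nonneg {n : ℕ} (μ : G n →₀ ℝ) (hμ : ∀ p, 0 ≤ μ p) (F : G n → ℝ)
    (h : ∀ p, μ p ≠ 0 → 0 ≤ F p) : 0 ≤ Ex μ F := by
  unfold Ex Finsupp.sum
  exact Finset.sum_nonneg fun p hp => mul_nonneg (hμ p) (h p (Finsupp.mem_support_iff.1 hp))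

theorem Ex_congr {n : ℕ} (μ : G n →₀ ℝ) (F H : G n → ℝ)
    (h : ∀ p, μ p ≠ 0 → F p = H p) : Ex μ F = Ex μ H := by
  unfold Ex Finsupp.sum
  refine Finset.sum_congr rfl fun p hp => ?_
  show μ p * F p = μ p * H p
  rw [h p (Finsupp.mem_support_iff.1 hp)]

/-- The expectation as a sum over any finite set containing the support. -/
theorem Ex_eq_sum {n : ℕ} (μ : G n →₀ ℝ) (F : G n → ℝ) (s : Finset (G n))
    (hs : μ.support ⊆ s) : Ex μ F = ∑ p ∈ s, μ p * F p := by
  unfold Ex
  exact Finsupp.sum_of_support_subset _ hs _ (by simp)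

theorem Ex_add_law {n : ℕ} (μ ν : G n →₀ ℝ) (F : G n → ℝ) :
    Ex (μ + ν) F = Ex μ F + Ex ν F := by
  unfold Ex
  exact Finsupp.sum_add_index' (by simp) (by intros; ring)

theorem Ex_smul_law {n : ℕ} (c : ℝ) (μ : G n →₀ ℝ) (F : G n → ℝ) :
    Ex (c • μ) F = c * Ex μ F := by
  unfold Ex
  rw [Finsupp.sum_smul_index (by simp)]
  simp only [Finsupp.sum, Finset.mul_sum]
  exact Finset.sum_congr rfl fun p _ => by ring

theorem Ex_mapDomain {n : ℕ} (μ : G n →₀ ℝ) (f : G n → G n) (F : G n → ℝ) :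
    Ex (μ.mapDomain f) F = Ex μ (fun p => F (f p)) := by
  unfold Ex
  exact Finsupp.sum_mapDomain_index (by simp) (by intros; ring)

theorem Ex_finset_sum_law {n : ℕ} {K : Type*} (s : Finset K) (μ : K → (G n →₀ ℝ))
    (F : G n → ℝ) : Ex (∑ k ∈ s, μ k) F = ∑ k ∈ s, Ex (μ k) F := by
  classical
  induction s using Finset.induction_on with
  | empty => simp [Ex]
  | insert a s ha ih => rw [Finset.sum_insert ha, Finset.sum_insert ha, Ex_add_law, ih]

/-! ### the walk -/

section walk

variable {n : ℕ} {K : Type*} [Fintype K] (u : K → ℝ) (b : K → G n)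

theorem Ex_L_zero (F : G n → ℝ) : Ex (L u b 0) F = F 0 := by
  simp [Ex, L]

theorem Ex_L_succ (N : ℕ) (F : G n → ℝ) :
    Ex (L u b (N + 1)) F = ∑ k, u k * Ex (L u b N) (fun p => F (p + b k)) := by
  rw [L, Ex_finset_sum_law]
  exact Finset.sum_congr rfl fun k _ => by rw [Ex_smul_law, Ex_mapDomain]

theorem Ex_L_one (hu1 : ∑ k, u k = 1) (N : ℕ) : Ex (L u b N) (fun _ => 1) = 1 := by
  induction N with
  | zero => rw [Ex_L_zero]
  | succ N ih => rw [Ex_L_succ]; simp [ih, hu1]

theorem L_succ_apply (N : ℕ) (q : G n) :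
    L u b (N + 1) q = ∑ k, u k * L u b N (q - b k) := by
  rw [L, Finsupp.finsetSum_apply]
  refine Finset.sum_congr rfl fun k _ => ?_
  rw [Finsupp.smul_apply, smul_eq_mul]
  congr 1
  have h := Finsupp.mapDomain_apply (f := fun p : G n => p + b k)
    (fun x y hxy => by simpa using hxy) (L u b N) (q - b k)
  simpa using h

theorem L_nonneg (hu : ∀ k, 0 ≤ u k) (N : ℕ) (q : G n) : 0 ≤ L u b N q := by
  classical
  induction N generalizing q with
  | zero => rw [L, Finsupp.single_apply]; split_ifs <;> norm_num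
  | succ N ih =>
    rw [L_succ_apply]
    exact Finset.sum_nonneg fun k _ => mul_nonneg (hu k) (ih _)

/-- The support of the law lies in the box of side `N`. -/
theorem L_support_box (hb : ∀ k i, |b k i| ≤ 1) (N : ℕ) (q : G n) (hq : L u b N q ≠ 0) :
    ∀ i, |q i| ≤ N := by
  classical
  induction N generalizing q with
  | zero =>
    rw [L, Finsupp.single_apply] at hq
    intro i
    by_cases h0 : (0 : G n) = q
    · simp [← h0]
    · simp [h0] at hq
  | succ N ih =>
    rw [L_succ_apply] at hq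
    obtain ⟨k, _, hk⟩ := Finset.exists_ne_zero_of_sum_ne_zero hq
    have h1 := ih (q - b k) (fun h => hk (by rw [h, mul_zero]))
    intro i
    have h2 := h1 i
    have h3 := hb k i
    rw [Pi.sub_apply] at h2
    have h4 : |q i| ≤ |q i - b k i| + |b k i| := by
      have := abs_add_le (q i - b k i) (b k i)
      simpa using this
    push_cast
    linarith

theorem L_support_card (hb : ∀ k i, |b k i| ≤ 1) (N : ℕ) :
    (L u b N).support.card ≤ (2 * N + 1) ^ n := by
  classical
  have hsub : (L u b N).support ⊆ Fintype.piFinset (fun _ : Fin n => Finset.Icc (-(N : ℤ)) N) := by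
    intro q hq
    rw [Fintype.mem_piFinset]
    intro i
    have := L_support_box u b hb N q (Finsupp.mem_support_iff.1 hq) i
    rw [Finset.mem_Icc]
    exact abs_le.1 this
  refine (Finset.card_le_card hsub).trans ?_
  rw [Fintype.card_piFinset]
  simp only [Int.card_Icc, Finset.prod_const, Finset.card_univ, Fintype.card_fin]
  have : ((N : ℤ) + 1 - -(N : ℤ)).toNat = 2 * N + 1 := by omega
  rw [this]

end walk

end Pool.Agent.Lib.NT.Mul
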