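import Pool.Agent.Lib.MP_0430e4_lc.NT.MulB1
import Pool.Agent.Lib.MP_0430e4_lc.NT.MulB2

/-!
MULTIPLES theorem, module E (45 minutes): Q against bilinear forms.

bilinear_le_Q.  S = sum_{i,j} w_i v_j F_i H_j e (beta <X i, Y j>).  |S|^2 <= sum_i w_i |sum_j v_j H_j e(beta <X i, Y j>)|^2
 (Cauchy-Schwarz, sum w = 1, |F_i| <= 1) = sum_{j,j'} v_j v_j' H_j conj(H_j') tr w X beta (Y j - Y j')
 <= sum_{j,j'} v_j v_j' ‖tr w X beta (Y j - Y j')‖ , and squaring once more (Cauchy-Schwarz, total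
 mass 1): |S|^4 <= Q.
Q_le_bilinear.  Q = sum_{i',j'} w_i' v_j' [ sum_{i,j} w_i v_j e (beta <X i - X i', Y j - Y j'>) ], and
 e (beta <X i - X i', Y j - Y j'>) = F_i H_j e (beta <X i, Y j>) with unimodular
 F_i = e (-beta <X i, Y j'>) e (beta <X i', Y j'>), H_j = e (-beta <X i', Y j>): each bracket is <= c in
 norm, and sum w_i' v_j' = 1.
-/

set_option maxHeartbeats 400000

namespace Pool.Agent.Lib.NT.Mul

open Finset

private theorem wcs {I : Type*} [Fintype I] (w : I → ℝ) (hw : ∀ i, 0 ≤ w i) (hw1 : ∑ i, w i = 1)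
    (t : I → ℝ) : (∑ i, w i * t i) ^ 2 ≤ ∑ i, w i * t i ^ 2 := by
  have h := Finset.sum_sq_le_sum_mul_sum_of_sq_le_mul Finset.univ (r := fun i => w i * t i)
    (f := w) (g := fun i => w i * t i ^ 2) (fun i _ => hw i)
    (fun i _ => mul_nonneg (hw i) (sq_nonneg _)) (fun i _ => le_of_eq (by ring))
  rw [hw1, one_mul] at h
  exact h

private theorem wcs_norm {I : Type*} [Fintype I] (w : I → ℝ) (hw : ∀ i, 0 ≤ w i)
    (hw1 : ∑ i, w i = 1) (a : I → ℂ) : ‖∑ i, (w i : ℂ) * a i‖ ^ 2 ≤ ∑ i, w i * ‖a i‖ ^ 2 := by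
  have h1 : ‖∑ i, (w i : ℂ) * a i‖ ≤ ∑ i, w i * ‖a i‖ := by
    refine (norm_sum_le _ _).trans (Finset.sum_le_sum fun i _ => ?_)
    rw [norm_mul, Complex.norm_real, Real.norm_of_nonneg (hw i)]
  calc ‖∑ i, (w i : ℂ) * a i‖ ^ 2 ≤ (∑ i, w i * ‖a i‖) ^ 2 :=
        pow_le_pow_left₀ (norm_nonneg _) h1 2
    _ ≤ _ := wcs w hw hw1 _

private theorem prod_w {J : Type*} [Fintype J] (v : J → ℝ) (hv1 : ∑ j, v j = 1) :
    ∑ z : J × J, v z.1 * v z.2 = 1 := by
  rw [Fintype.sum_prod_type]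
  simp only
  rw [← Finset.sum_mul_sum, hv1, one_mul]

private theorem sq_norm_sum {J : Type*} [Fintype J] (c : J → ℂ) :
    ((‖∑ j, c j‖ ^ 2 : ℝ) : ℂ) = ∑ j, ∑ j', c j * (starRingEnd ℂ) (c j') := by
  rw [← Finset.sum_mul_sum, ← map_sum, Complex.mul_conj, Complex.normSq_eq_norm_sq]

variable {n : ℕ} {I J : Type*} [Fintype I] [Fintype J]

theorem bilinear_le_Q (w : I → ℝ) (X : I → G n) (v : J → ℝ) (Y : J → G n)
    (hw : ∀ i, 0 ≤ w i) (hw1 : ∑ i, w i = 1) (hv : ∀ j, 0 ≤ v j) (hv1 : ∑ j, v j = 1)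
    (F : I → ℂ) (H : J → ℂ) (hF : ∀ i, ‖F i‖ ≤ 1) (hH : ∀ j, ‖H j‖ ≤ 1) (β : ℝ) :
    ‖∑ i, ∑ j, (w i : ℂ) * v j * (F i * H j) * e (β * ip (X i) (Y j))‖ ^ 4
      ≤ Q w X v Y β := by
  have e0 : ∑ i, ∑ j, (w i : ℂ) * v j * (F i * H j) * e (β * ip (X i) (Y j))
      = ∑ i, (w i : ℂ) * (F i * ∑ j, (v j : ℂ) * H j * e (β * ip (X i) (Y j))) := by
    refine Finset.sum_congr rfl fun i _ => ?_
    rw [Finset.mul_sum, Finset.mul_sum]
    exact Finset.sum_congr rfl fun j _ => by ring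
  obtain ⟨R, hR⟩ : ∃ R : ℝ, R = ∑ i, w i * ‖∑ j, (v j : ℂ) * H j * e (β * ip (X i) (Y j))‖ ^ 2 :=
    ⟨_, rfl⟩
  have h1 : ‖∑ i, ∑ j, (w i : ℂ) * v j * (F i * H j) * e (β * ip (X i) (Y j))‖ ^ 2 ≤ R := by
    rw [e0, hR]
    refine (wcs_norm w hw hw1 _).trans (Finset.sum_le_sum fun i _ => ?_)
    refine mul_le_mul_of_nonneg_left ?_ (hw i)
    refine pow_le_pow_left₀ (norm_nonneg _) ?_ 2
    rw [norm_mul]
    exact mul_le_of_le_one_left (norm_nonneg _) (hF i)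
  have hR0 : 0 ≤ R := by
    rw [hR]
    exact Finset.sum_nonneg fun i _ => mul_nonneg (hw i) (sq_nonneg _)
  have h2 : (R : ℂ) = ∑ z : J × J, ((v z.1 * v z.2 : ℝ) : ℂ) *
      (H z.1 * (starRingEnd ℂ) (H z.2) * tr w X β (Y z.1 - Y z.2)) := by
    rw [hR, Complex.ofReal_sum, Fintype.sum_prod_type]
    have e1 : ∀ i, ((w i * ‖∑ j, (v j : ℂ) * H j * e (β * ip (X i) (Y j))‖ ^ 2 : ℝ) : ℂ)
        = ∑ j, ∑ j', (w i : ℂ) * ((v j : ℂ) * H j * e (β * ip (X i) (Y j)) *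
          (starRingEnd ℂ) ((v j' : ℂ) * H j' * e (β * ip (X i) (Y j')))) := by
      intro i
      rw [Complex.ofReal_mul, sq_norm_sum, Finset.mul_sum]
      exact Finset.sum_congr rfl fun j _ => by rw [Finset.mul_sum]
    rw [Finset.sum_congr rfl fun i _ => e1 i, Finset.sum_comm]
    refine Finset.sum_congr rfl fun j _ => ?_
    rw [Finset.sum_comm]
    refine Finset.sum_congr rfl fun j' _ => ?_
    unfold tr
    rw [Finset.mul_sum, Finset.mul_sum]
    refine Finset.sum_congr rfl fun i _ => ?_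
    simp only [map_mul, Complex.conj_ofReal, conj_e]
    have e2 : e (β * ip (Y j - Y j') (X i)) = e (β * ip (X i) (Y j)) * e (-(β * ip (X i) (Y j'))) := by
      rw [← e_add, ip_sub_left, ip_comm (Y j), ip_comm (Y j')]
      congr 1; push_cast; ring
    rw [e2]; push_cast; ring
  have h3 : R ≤ ∑ z : J × J, (v z.1 * v z.2) * ‖tr w X β (Y z.1 - Y z.2)‖ := by
    have h4 : R = ‖(R : ℂ)‖ := by rw [Complex.norm_real, Real.norm_of_nonneg hR0]
    rw [h4, h2]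
    refine (norm_sum_le _ _).trans (Finset.sum_le_sum fun z _ => ?_)
    rw [norm_mul, Complex.norm_real, Real.norm_of_nonneg (mul_nonneg (hv _) (hv _))]
    refine mul_le_mul_of_nonneg_left ?_ (mul_nonneg (hv _) (hv _))
    rw [norm_mul, norm_mul, RCLike.norm_conj]
    have h5 : ‖H z.1‖ * ‖H z.2‖ ≤ 1 :=
      mul_le_one₀ (hH _) (norm_nonneg _) (hH _)
    exact mul_le_of_le_one_left (norm_nonneg _) h5
  have h6 : R ^ 2 ≤ Q w X v Y β := by
    have h7 := wcs (fun z : J × J => v z.1 * v z.2) (fun z => mul_nonneg (hv _) (hv _))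
      (prod_w v hv1) (fun z => ‖tr w X β (Y z.1 - Y z.2)‖)
    have h8 : Q w X v Y β = ∑ z : J × J, (v z.1 * v z.2) * ‖tr w X β (Y z.1 - Y z.2)‖ ^ 2 := by
      rw [Fintype.sum_prod_type]; rfl
    rw [h8]
    exact (pow_le_pow_left₀ hR0 h3 2).trans h7
  calc ‖∑ i, ∑ j, (w i : ℂ) * v j * (F i * H j) * e (β * ip (X i) (Y j))‖ ^ 4
      = (‖∑ i, ∑ j, (w i : ℂ) * v j * (F i * H j) * e (β * ip (X i) (Y j))‖ ^ 2) ^ 2 := by ring
    _ ≤ R ^ 2 := pow_le_pow_left₀ (sq_nonneg _) h1 2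
    _ ≤ _ := h6

theorem Q_le_bilinear (w : I → ℝ) (X : I → G n) (v : J → ℝ) (Y : J → G n)
    (hw : ∀ i, 0 ≤ w i) (hw1 : ∑ i, w i = 1) (hv : ∀ j, 0 ≤ v j) (hv1 : ∑ j, v j = 1)
    (β c : ℝ)
    (h : ∀ (F : I → ℂ) (H : J → ℂ), (∀ i, ‖F i‖ ≤ 1) → (∀ j, ‖H j‖ ≤ 1) →
      ‖∑ i, ∑ j, (w i : ℂ) * v j * (F i * H j) * e (β * ip (X i) (Y j))‖ ≤ c) :
    Q w X v Y β ≤ c := by
  have hQ0 : 0 ≤ Q w X v Y β := by
    unfold Q
    exact Finset.sum_nonneg fun j _ => Finset.sum_nonneg fun j' _ =>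
      mul_nonneg (mul_nonneg (hv _) (hv _)) (sq_nonneg _)
  have h1 : ((Q w X v Y β : ℝ) : ℂ) = ∑ i', ∑ j', ((w i' * v j' : ℝ) : ℂ) *
      ∑ i, ∑ j, (w i : ℂ) * v j *
        ((e (-(β * ip (X i) (Y j'))) * e (β * ip (X i') (Y j'))) * e (-(β * ip (X i') (Y j)))) *
          e (β * ip (X i) (Y j)) := by
    have e1 : ((Q w X v Y β : ℝ) : ℂ) = ∑ j, ∑ j', ∑ i, ∑ i', ((v j : ℂ) * v j') *
        (((w i : ℂ) * e (β * ip (Y j - Y j') (X i))) *
          (starRingEnd ℂ) ((w i' : ℂ) * e (β * ip (Y j - Y j') (X i')))) := by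
      unfold Q
      rw [Complex.ofReal_sum]
      refine Finset.sum_congr rfl fun j _ => ?_
      rw [Complex.ofReal_sum]
      refine Finset.sum_congr rfl fun j' _ => ?_
      rw [Complex.ofReal_mul]
      unfold tr
      rw [sq_norm_sum, Finset.mul_sum]
      refine Finset.sum_congr rfl fun i _ => ?_
      rw [Finset.mul_sum, Complex.ofReal_mul]
    rw [e1]
    -- reorder the sums : j, j', i, i' to i', j', i, j
    have e2 : ∀ g : J → J → I → I → ℂ, ∑ j, ∑ j', ∑ i, ∑ i', g j j' i i'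
        = ∑ i', ∑ j', ∑ i, ∑ j, g j j' i i' := by
      intro g
      calc ∑ j, ∑ j', ∑ i, ∑ i', g j j' i i'
          = ∑ j', ∑ j, ∑ i, ∑ i', g j j' i i' := Finset.sum_comm
        _ = ∑ j', ∑ i', ∑ i, ∑ j, g j j' i i' := by
            refine Finset.sum_congr rfl fun j' _ => ?_
            calc ∑ j, ∑ i, ∑ i', g j j' i i' = ∑ j, ∑ i', ∑ i, g j j' i i' :=
                  Finset.sum_congr rfl fun j _ => Finset.sum_comm
              _ = ∑ i', ∑ j, ∑ i, g j j' i i' := Finset.sum_comm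
              _ = ∑ i', ∑ i, ∑ j, g j j' i i' := Finset.sum_congr rfl fun i' _ => Finset.sum_comm
        _ = _ := Finset.sum_comm
    rw [e2]
    refine Finset.sum_congr rfl fun i' _ => Finset.sum_congr rfl fun j' _ => ?_
    rw [Finset.mul_sum]
    refine Finset.sum_congr rfl fun i _ => ?_
    rw [Finset.mul_sum]
    refine Finset.sum_congr rfl fun j _ => ?_
    simp only [map_mul, Complex.conj_ofReal, conj_e]
    have e3 : e (β * ip (Y j - Y j') (X i)) * e (-(β * ip (Y j - Y j') (X i')))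
        = ((e (-(β * ip (X i) (Y j'))) * e (β * ip (X i') (Y j'))) * e (-(β * ip (X i') (Y j)))) *
          e (β * ip (X i) (Y j)) := by
      rw [← e_add, ← e_add, ← e_add, ← e_add, ip_sub_left, ip_sub_left, ip_comm (Y j) (X i),
        ip_comm (Y j') (X i), ip_comm (Y j) (X i'), ip_comm (Y j') (X i')]
      congr 1; push_cast; ring
    calc (v j : ℂ) * v j' * ((w i : ℂ) * e (β * ip (Y j - Y j') (X i)) *
          ((w i' : ℂ) * e (-(β * ip (Y j - Y j') (X i')))))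
        = ((w i' : ℂ) * v j') * ((w i : ℂ) * v j) *
          (e (β * ip (Y j - Y j') (X i)) * e (-(β * ip (Y j - Y j') (X i')))) := by ring
      _ = _ := by rw [e3]; push_cast; ring
  have h2 : Q w X v Y β = ‖((Q w X v Y β : ℝ) : ℂ)‖ := by
    rw [Complex.norm_real, Real.norm_of_nonneg hQ0]
  rw [h2, h1]
  calc ‖∑ i', ∑ j', ((w i' * v j' : ℝ) : ℂ) *
      ∑ i, ∑ j, (w i : ℂ) * v j *
        ((e (-(β * ip (X i) (Y j'))) * e (β * ip (X i') (Y j'))) * e (-(β * ip (X i') (Y j)))) *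
          e (β * ip (X i) (Y j))‖
      ≤ ∑ i', ∑ j', (w i' * v j') * c := by
        refine (norm_sum_le _ _).trans (Finset.sum_le_sum fun i' _ => ?_)
        refine (norm_sum_le _ _).trans (Finset.sum_le_sum fun j' _ => ?_)
        rw [norm_mul, Complex.norm_real, Real.norm_of_nonneg (mul_nonneg (hw _) (hv _))]
        refine mul_le_mul_of_nonneg_left ?_ (mul_nonneg (hw _) (hv _))
        refine h (fun i => e (-(β * ip (X i) (Y j'))) * e (β * ip (X i') (Y j')))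
          (fun j => e (-(β * ip (X i') (Y j)))) (fun i => ?_) (fun j => ?_)
        · rw [norm_mul, norm_e, norm_e, one_mul]
        · exact (norm_e _).le
    _ = c := by
        have : ∀ i', ∑ j', (w i' * v j') * c = w i' * c := by
          intro i'
          rw [← Finset.sum_mul, ← Finset.mul_sum, hv1, mul_one]
        rw [Finset.sum_congr rfl fun i' _ => this i', ← Finset.sum_mul, hw1, one_mul]

end Pool.Agent.Lib.NT.Mul
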